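import Pool.Agent.Q139.DT.J10

namespace Q139.DT

lemma image_seg (g : Sym) (a b : Plane) :
    app g '' segment ℝ a b = segment ℝ (app g a) (app g b) :=
  image_segment ℝ ((iso g).toRealAffineIsometryEquiv.toAffineEquiv.toAffineMap) a b

lemma inv_mul_app (i j : Sym) (z : Plane) :
    app (inv (mul (inv i) j)) z = app (inv j) (app i z) := by
  have h : inv (mul (inv i) j) = mul (inv j) i := by
    ext1 <;> rcases units_cases i.σ with hs | hs <;> rcases units_cases i.τ with ht | ht <;>
      rcases units_cases j.σ with hs' | hs' <;> rcases units_cases j.τ with ht' | ht' <;>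
      simp [mul, inv, hs, ht, hs', ht'] <;> ring
  rw [h, app_mul]

lemma mem_fr (g : Sym) (z : Plane) :
    z ∈ frontier (T g).region ↔ In (app (inv g) z) ∧ ¬ SIn (app (inv g) z) := by
  rw [frontier_T, mem_image_iso, t3]

lemma edge_mul (i g : Sym) (l : ZMod 8) :
    (T (mul i g)).edge l = app i '' (T g).edge l := by
  change segment ℝ (app (mul i g) (V0 l)) (app (mul i g) (V0 (l + 1))) =
    app i '' segment ℝ (app g (V0 l)) (app g (V0 (l + 1)))
  rw [image_seg, app_mul, app_mul]

theorem edgeDisjoint (h6 : PStm6) : EdgeDisjoint T := by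
  rintro i (k : ZMod 8) a b hab hseg
  have hk : (T i).edge k = app i '' segment ℝ (V0 k) (V0 (k + 1)) := by
    rw [image_seg]
    rfl
  have hne : app (inv i) a ≠ app (inv i) b := by
    intro h
    apply hab
    rw [← app_app_inv i a, h, app_app_inv]
  have hseg' : segment ℝ (app (inv i) a) (app (inv i) b) ⊆ segment ℝ (V0 k) (V0 (k + 1)) := by
    rw [← image_seg]
    rintro _ ⟨z, hz, rfl⟩
    have h1 := hseg hz
    rw [hk] at h1
    obtain ⟨w, hw, rfl⟩ := h1
    rw [app_inv_app]
    exact hw
  have key := h6 k _ _ hne hseg'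
  refine le_trans ?_ key
  have hsub : {j | segment ℝ a b ⊆ frontier (T j).region} ⊆ mul i ''
      {h : Sym | ∀ z ∈ segment ℝ (app (inv i) a) (app (inv i) b),
        In (app (inv h) z) ∧ ¬ SIn (app (inv h) z)} := by
    intro j hj
    refine ⟨mul (inv i) j, ?_, mul_inv_cancel_left' i j⟩
    intro z hz
    rw [← image_seg] at hz
    obtain ⟨w, hw, rfl⟩ := hz
    rw [inv_mul_app, app_app_inv, ← mem_fr]
    exact hj hw
  exact (Set.encard_le_encard hsub).trans (Set.encard_image_le _ _)

theorem vertexDisjoint (h7 : PStm7) : VertexDisjoint T := by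
  rintro i (k : ZMod 8)
  obtain ⟨m, hm, c, e, hc, he, hr, hs⟩ := h7 k
  have happ : Function.Injective (app i) := (iso i).injective
  have hv : (T i).v k = app i (V0 k) := rfl
  refine ⟨m, hm, fun t => mul i (c t), fun t => app i '' e t, ?_, ?_, ?_, ?_⟩
  · intro s t hst
    apply hc
    have h1 := congrArg (mul (inv i)) hst
    simpa only [inv_mul_cancel_left'] using h1
  · intro s t hst
    exact he (happ.image_injective hst)
  · ext j
    constructor
    · rintro ⟨t, rfl⟩
      have h1 : c t ∈ Set.range c := ⟨t, rfl⟩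
      rw [hr] at h1
      change (T i).v k ∈ frontier (T (mul i (c t))).region
      rw [mem_fr, hv]
      have h2 := inv_mul_app i (mul i (c t)) (V0 k)
      rw [inv_mul_cancel_left'] at h2
      rw [← h2]
      exact h1
    · intro hj
      rw [Set.mem_ofPred_eq, mem_fr, hv, ← inv_mul_app] at hj
      have h1 : mul (inv i) j ∈ Set.range c := by
        rw [hr]
        exact hj
      obtain ⟨t, ht⟩ := h1
      refine ⟨t, ?_⟩
      change mul i (c t) = j
      rw [ht, mul_inv_cancel_left']
  · intro t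
    obtain ⟨h1, ⟨l, h2⟩, ⟨l', h3⟩⟩ := hs t
    exact ⟨⟨_, h1, hv⟩, ⟨l, (edge_mul i (c t) l).trans (congrArg (fun S => app i '' S) h2)⟩,
      ⟨l', (edge_mul i (c (t + 1)) l').trans (congrArg (fun S => app i '' S) h3)⟩⟩

theorem assembly (h4 : PStm4) (h5 : PStm5) (h6 : PStm6) (h7 : PStm7) :
    ∃ (ι : Type) (T : ι → ConvexPolygon), IsMultipleTiling T 2 ∧ EdgeDisjoint T ∧
      VertexDisjoint T ∧ Isohedral T ∧ Irreducible T 2 :=
  ⟨Sym, T, ⟨h4, h5⟩, edgeDisjoint h6, vertexDisjoint h7, t8, t_irr h5⟩

end Q139.DT
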