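import Mathlib

/-!
# Multiple tilings of the plane by convex polygons (MP_548d6e_co)
-/

namespace Q139.DT

/-- The Euclidean plane. -/
abbrev Plane := EuclideanSpace ℝ (Fin 2)

/-- Twice the signed area of the triangle `a b c`. -/
def det (a b c : Plane) : ℝ := (b 0 - a 0) * (c 1 - a 1) - (b 1 - a 1) * (c 0 - a 0)

/-- A convex polygon with `n ≥ 3` corners `v 0, v 1, …, v (n - 1)` in cyclic order: for every side
`v i, v (i + 1)`, all the other corners lie strictly on one side of the line through it. -/
structure ConvexPolygon where
  /-- the number of corners -/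
  n : ℕ
  three_le : 3 ≤ n
  /-- the corners in cyclic order -/
  v : ZMod n → Plane
  side : ∀ i j k, j ≠ i → j ≠ i + 1 → k ≠ i → k ≠ i + 1 →
    0 < det (v i) (v (i + 1)) (v j) * det (v i) (v (i + 1)) (v k)

/-- The closed region of a convex polygon. -/
def ConvexPolygon.region (P : ConvexPolygon) : Set Plane := convexHull ℝ (Set.range P.v)

/-- The `i`-th side of a convex polygon. -/
def ConvexPolygon.edge (P : ConvexPolygon) (i : ZMod P.n) : Set Plane :=
  segment ℝ (P.v i) (P.v (i + 1))

/-- A multiple tiling of density `d`: a locally finite family of convex polygons such that every point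
lying on the boundary of no tile lies in the interiors of exactly `d` tiles. -/
def IsMultipleTiling {ι : Type} (T : ι → ConvexPolygon) (d : ℕ) : Prop :=
  (∀ K : Set Plane, Bornology.IsBounded K → {i | ((T i).region ∩ K).Nonempty}.Finite) ∧
  ∀ x : Plane, (∀ i, x ∉ frontier (T i).region) → {i | x ∈ interior (T i).region}.ncard = d

/-- No segment of positive length contained in an edge lies on the boundaries of more than two tiles. -/
def EdgeDisjoint {ι : Type} (T : ι → ConvexPolygon) : Prop :=
  ∀ i k a b, a ≠ b → segment ℝ a b ⊆ (T i).edge k →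
    {j | segment ℝ a b ⊆ frontier (T j).region}.encard ≤ 2

/-- For every vertex `V` the tiles whose boundary contains `V` form one single circuit
`c 0, c 1, …, c (m - 1)` around `V`, consecutive tiles sharing an edge `e t` at `V`, and these edges
are pairwise distinct. -/
def VertexDisjoint {ι : Type} (T : ι → ConvexPolygon) : Prop :=
  ∀ i k, ∃ m, 3 ≤ m ∧ ∃ (c : ZMod m → ι) (e : ZMod m → Set Plane),
    Function.Injective c ∧ Function.Injective e ∧
    Set.range c = {j | (T i).v k ∈ frontier (T j).region} ∧
    ∀ t, (T i).v k ∈ e t ∧ e t ∈ Set.range (T (c t)).edge ∧ e t ∈ Set.range (T (c (t + 1))).edge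

/-- The isometries of the plane mapping the family onto itself act transitively on the tiles. -/
def Isohedral {ι : Type} (T : ι → ConvexPolygon) : Prop :=
  ∀ i j, ∃ (φ : Plane ≃ᵢ Plane) (s : Equiv.Perm ι),
    (∀ k, φ '' (T k).region = (T (s k)).region) ∧ s i = j

/-- The family is not the superposition of several multiple tilings each of density less than `d`. -/
def Irreducible {ι : Type} (T : ι → ConvexPolygon) (d : ℕ) : Prop :=
  ∀ (r : ℕ) (f : ι → Fin r) (D : Fin r → ℕ), (∀ c, D c < d) →
    ¬ ∀ c, IsMultipleTiling (fun i : {i // f i = c} => T i) (D c)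

end Q139.DT
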