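import Pool.Agent.Q139.DT.Defs

namespace Q139.DT

/-- The point with coordinates `x`, `y`. -/
def pt (x y : ℝ) : Plane := !₂[x, y]

@[simp] lemma pt_zero (x y : ℝ) : pt x y 0 = x := rfl
@[simp] lemma pt_one (x y : ℝ) : pt x y 1 = y := rfl

lemma ext' {z w : Plane} (h0 : z 0 = w 0) (h1 : z 1 = w 1) : z = w := by
  ext i
  fin_cases i
  · exact h0
  · exact h1

/-- The elements of the group: `(x, y) ↦ (σ x + 4 m, τ y + 4 n)` with `m`, `n` both even if `σ = τ` and
both odd otherwise (a group of type pgg). -/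
@[ext]
structure Sym where
  σ : ℤˣ
  τ : ℤˣ
  m : ℤ
  n : ℤ
  hm : Even m ↔ σ = τ
  hn : Even n ↔ σ = τ

/-- The action of a group element on the plane. -/
def app (g : Sym) (z : Plane) : Plane :=
  pt (((g.σ : ℤ) : ℝ) * z 0 + 4 * (g.m : ℝ)) (((g.τ : ℤ) : ℝ) * z 1 + 4 * (g.n : ℝ))

@[simp] lemma app_zero (g : Sym) (z : Plane) :
    app g z 0 = ((g.σ : ℤ) : ℝ) * z 0 + 4 * (g.m : ℝ) := rfl
@[simp] lemma app_one (g : Sym) (z : Plane) :
    app g z 1 = ((g.τ : ℤ) : ℝ) * z 1 + 4 * (g.n : ℝ) := rfl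

lemma units_cases (u : ℤˣ) : u = 1 ∨ u = -1 := Int.units_eq_one_or u

lemma parity_aux (u : ℤˣ) (a b : ℤ) : Even ((u : ℤ) * a + b) ↔ (Even a ↔ Even b) := by
  rcases units_cases u with rfl | rfl
  · simp [Int.even_add]
  · simp [Int.even_add]

lemma units_aux (a b c d : ℤˣ) : a * c = b * d ↔ (a = b ↔ c = d) := by
  rcases units_cases a with rfl | rfl <;> rcases units_cases b with rfl | rfl <;>
    rcases units_cases c with rfl | rfl <;> rcases units_cases d with rfl | rfl <;> decide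

/-- Composition. -/
def mul (g h : Sym) : Sym where
  σ := g.σ * h.σ
  τ := g.τ * h.τ
  m := g.σ * h.m + g.m
  n := g.τ * h.n + g.n
  hm := by
    rw [parity_aux, g.hm, h.hm, units_aux]
    tauto
  hn := by
    rw [parity_aux, g.hn, h.hn, units_aux]
    tauto

/-- Inverse. -/
def inv (g : Sym) : Sym where
  σ := g.σ
  τ := g.τ
  m := -(g.σ * g.m)
  n := -(g.τ * g.n)
  hm := by
    have h0 := g.hm
    rcases units_cases g.σ with h | h <;> simpa [h] using h0
  hn := by
    have h0 := g.hn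
    rcases units_cases g.τ with h | h <;> simpa [h] using h0

/-- Identity. -/
def one : Sym where
  σ := 1
  τ := 1
  m := 0
  n := 0
  hm := by simp
  hn := by simp

lemma sq_unit (u : ℤˣ) : ((u : ℤ) : ℝ) * ((u : ℤ) : ℝ) = 1 := by
  rcases units_cases u with rfl | rfl <;> norm_num

lemma app_mul (g h : Sym) (z : Plane) : app (mul g h) z = app g (app h z) := by
  apply ext'
  · simp [mul]
    ring
  · simp [mul]
    ring

lemma app_one' (z : Plane) : app one z = z := by
  apply ext' <;> simp [one]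

lemma app_inv_app (g : Sym) (z : Plane) : app (inv g) (app g z) = z := by
  apply ext'
  · simp only [app_zero, inv]
    push_cast
    linear_combination (z 0) * sq_unit g.σ
  · simp only [app_one, inv]
    push_cast
    linear_combination (z 1) * sq_unit g.τ

lemma app_app_inv (g : Sym) (z : Plane) : app g (app (inv g) z) = z := by
  apply ext'
  · simp only [app_zero, inv]
    push_cast
    linear_combination (z 0 - 4 * (g.m : ℝ)) * sq_unit g.σ
  · simp only [app_one, inv]
    push_cast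
    linear_combination (z 1 - 4 * (g.n : ℝ)) * sq_unit g.τ

lemma mul_inv_cancel_left' (g h : Sym) : mul g (mul (inv g) h) = h := by
  ext1 <;> rcases units_cases g.σ with hs | hs <;> rcases units_cases g.τ with ht | ht <;>
    simp [mul, inv, hs, ht]

lemma inv_mul_cancel_left' (g h : Sym) : mul (inv g) (mul g h) = h := by
  ext1 <;> rcases units_cases g.σ with hs | hs <;> rcases units_cases g.τ with ht | ht <;>
    simp [mul, inv, hs, ht]

/-- A group element as an isometry. -/
def iso (g : Sym) : Plane ≃ᵢ Plane where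
  toFun := app g
  invFun := app (inv g)
  left_inv := app_inv_app g
  right_inv := app_app_inv g
  isometry_toFun := by
    refine Isometry.of_dist_eq fun z w => ?_
    rw [EuclideanSpace.dist_eq, EuclideanSpace.dist_eq]
    congr 1
    simp only [Fin.sum_univ_two, app_zero, app_one, Real.dist_eq, sq_abs]
    linear_combination ((z 0 - w 0) ^ 2) * sq_unit g.σ + ((z 1 - w 1) ^ 2) * sq_unit g.τ

@[simp] lemma iso_apply (g : Sym) (z : Plane) : iso g z = app g z := rfl
@[simp] lemma iso_symm_apply (g : Sym) (z : Plane) : (iso g).symm z = app (inv g) z := rfl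

/-- First coordinates of the corners of the octagon. -/
def X : ZMod 8 → ℤ := (![2, 6, 9, 13, 14, 11, 5, 1] : Fin 8 → ℤ)
/-- Second coordinates of the corners of the octagon. -/
def Y : ZMod 8 → ℤ := (![0, 0, 1, 3, 4, 5, 3, 1] : Fin 8 → ℤ)

/-- The corners of the octagon. -/
def V0 (k : ZMod 8) : Plane := pt (X k) (Y k)

/-- integer determinant -/
def detZ (a b c : ZMod 8) : ℤ := (X b - X a) * (Y c - Y a) - (Y b - Y a) * (X c - X a)

lemma det_V0 (a b c : ZMod 8) : det (V0 a) (V0 b) (V0 c) = (detZ a b c : ℝ) := by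
  simp [det, V0, detZ]

lemma side_Z : ∀ i j k : ZMod 8, j ≠ i → j ≠ i + 1 → k ≠ i → k ≠ i + 1 →
    0 < detZ i (i + 1) j * detZ i (i + 1) k := by
  decide

lemma det_app (g : Sym) (a b c : Plane) :
    det (app g a) (app g b) (app g c) = ((g.σ : ℤ) : ℝ) * ((g.τ : ℤ) : ℝ) * det a b c := by
  simp only [det, app_zero, app_one]
  ring

/-- The tile `g P`. -/
def T (g : Sym) : ConvexPolygon where
  n := 8
  three_le := by norm_num
  v := fun k => app g (V0 k)
  side := by
    intro i j k h1 h2 h3 h4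
    rw [det_app, det_app, det_V0, det_V0]
    have h := side_Z i j k h1 h2 h3 h4
    have h' : (0 : ℝ) < (detZ i (i + 1) j : ℝ) * (detZ i (i + 1) k : ℝ) := by exact_mod_cast h
    have e : ((g.σ : ℤ) : ℝ) * ((g.τ : ℤ) : ℝ) * (detZ i (i + 1) j : ℝ) *
        (((g.σ : ℤ) : ℝ) * ((g.τ : ℤ) : ℝ) * (detZ i (i + 1) k : ℝ)) =
        (((g.σ : ℤ) : ℝ) * ((g.σ : ℤ) : ℝ)) * (((g.τ : ℤ) : ℝ) * ((g.τ : ℤ) : ℝ)) *
        ((detZ i (i + 1) j : ℝ) * (detZ i (i + 1) k : ℝ)) := by ring
    rw [e, sq_unit, sq_unit]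
    linarith

/-- The base octagon as a set. -/
def R0 : Set Plane := convexHull ℝ (Set.range V0)

lemma region_T (g : Sym) : (T g).region = iso g '' R0 := by
  have h1 : Set.range (T g).v = iso g '' Set.range V0 := by
    rw [← Set.range_comp]
    rfl
  have h2 := AffineMap.image_convexHull (𝕜 := ℝ)
    ((iso g).toRealAffineIsometryEquiv.toAffineEquiv.toAffineMap) (Set.range V0)
  unfold ConvexPolygon.region
  rw [h1]
  exact h2.symm

/-- The closed inequalities of the octagon. -/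
def In (z : Plane) : Prop :=
  0 ≤ z 1 ∧ z 0 ≤ 3 * z 1 + 6 ∧ z 0 ≤ 2 * z 1 + 7 ∧ z 0 ≤ z 1 + 10 ∧ z 0 ≤ 26 - 3 * z 1 ∧
    3 * z 1 - 4 ≤ z 0 ∧ 2 * z 1 - 1 ≤ z 0 ∧ 2 - z 1 ≤ z 0

/-- The open inequalities of the octagon. -/
def SIn (z : Plane) : Prop :=
  0 < z 1 ∧ z 0 < 3 * z 1 + 6 ∧ z 0 < 2 * z 1 + 7 ∧ z 0 < z 1 + 10 ∧ z 0 < 26 - 3 * z 1 ∧
    3 * z 1 - 4 < z 0 ∧ 2 * z 1 - 1 < z 0 ∧ 2 - z 1 < z 0

lemma mem_image_iso (g : Sym) (S : Set Plane) (z : Plane) : z ∈ iso g '' S ↔ app (inv g) z ∈ S := by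
  constructor
  · rintro ⟨w, hw, rfl⟩
    rw [iso_apply, app_inv_app]
    exact hw
  · intro h
    exact ⟨_, h, app_app_inv g z⟩

lemma interior_T (g : Sym) : interior (T g).region = iso g '' interior R0 := by
  rw [region_T]
  exact ((iso g).toHomeomorph.image_interior R0).symm

lemma frontier_T (g : Sym) : frontier (T g).region = iso g '' frontier R0 := by
  rw [region_T]
  exact ((iso g).toHomeomorph.image_frontier R0).symm

end Q139.DT
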