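import Pool.Agent.Q139.DT.Stm

namespace Q139.DT

lemma tri_mem {S : Set Plane} (hS : Convex ℝ S) {a b c z : Plane} (ha : a ∈ S) (hb : b ∈ S)
    (hc : c ∈ S) (hd : 0 < det a b c) (h1 : 0 ≤ det a b z) (h2 : 0 ≤ det b c z)
    (h3 : 0 ≤ det c a z) : z ∈ S := by
  have hsum : det b c z + det c a z + det a b z = det a b c := by
    simp only [det]
    ring
  have key := hS.sum_mem (t := Finset.univ) (w := ![det b c z / det a b c, det c a z / det a b c,
    det a b z / det a b c]) (z := ![a, b, c]) (by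
      intro i _
      fin_cases i
      · exact div_nonneg h2 hd.le
      · exact div_nonneg h3 hd.le
      · exact div_nonneg h1 hd.le) (by
      simp only [Fin.sum_univ_three, Matrix.cons_val_zero, Matrix.cons_val_one, Matrix.cons_val_two,
        Matrix.head_cons, Matrix.tail_cons, Matrix.cons_val]
      rw [← add_div, ← add_div, hsum, div_self hd.ne']) (by
      intro i _
      fin_cases i
      · exact ha
      · exact hb
      · exact hc)
  have hz : z = ∑ i : Fin 3, (![det b c z / det a b c, det c a z / det a b c,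
      det a b z / det a b c] : Fin 3 → ℝ) i • (![a, b, c] : Fin 3 → Plane) i := by
    simp only [Fin.sum_univ_three, Matrix.cons_val_zero, Matrix.cons_val_one, Matrix.cons_val_two,
      Matrix.head_cons, Matrix.tail_cons, Matrix.cons_val]
    have hd' := hd.ne'
    apply ext'
    · simp only [PiLp.add_apply, PiLp.smul_apply, smul_eq_mul]
      field_simp
      simp only [det]
      ring
    · simp only [PiLp.add_apply, PiLp.smul_apply, smul_eq_mul]
      field_simp
      simp only [det]
      ring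
  rw [hz]
  exact key

lemma convex_In : Convex ℝ {z : Plane | In z} := by
  intro x hx y hy a b ha hb hab
  obtain ⟨x1, x2, x3, x4, x5, x6, x7, x8⟩ := hx
  obtain ⟨y1, y2, y3, y4, y5, y6, y7, y8⟩ := hy
  have e0 : (a • x + b • y) 0 = a * x 0 + b * y 0 := rfl
  have e1 : (a • x + b • y) 1 = a * x 1 + b * y 1 := rfl
  have hb' : b = 1 - a := by linarith
  simp only [Set.mem_ofPred_eq, In]
  rw [e0, e1]
  refine ⟨?_, ?_, ?_, ?_, ?_, ?_, ?_, ?_⟩
  · nlinarith [mul_nonneg ha x1, mul_nonneg hb y1]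
  · nlinarith [mul_nonneg ha (sub_nonneg.2 x2), mul_nonneg hb (sub_nonneg.2 y2)]
  · nlinarith [mul_nonneg ha (sub_nonneg.2 x3), mul_nonneg hb (sub_nonneg.2 y3)]
  · nlinarith [mul_nonneg ha (sub_nonneg.2 x4), mul_nonneg hb (sub_nonneg.2 y4)]
  · nlinarith [mul_nonneg ha (sub_nonneg.2 x5), mul_nonneg hb (sub_nonneg.2 y5)]
  · nlinarith [mul_nonneg ha (sub_nonneg.2 x6), mul_nonneg hb (sub_nonneg.2 y6)]
  · nlinarith [mul_nonneg ha (sub_nonneg.2 x7), mul_nonneg hb (sub_nonneg.2 y7)]
  · nlinarith [mul_nonneg ha (sub_nonneg.2 x8), mul_nonneg hb (sub_nonneg.2 y8)]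

lemma V0_eq : V0 0 = pt 2 0 ∧ V0 1 = pt 6 0 ∧ V0 2 = pt 9 1 ∧ V0 3 = pt 13 3 ∧ V0 4 = pt 14 4 ∧
    V0 5 = pt 11 5 ∧ V0 6 = pt 5 3 ∧ V0 7 = pt 1 1 := by
  refine ⟨?_, ?_, ?_, ?_, ?_, ?_, ?_, ?_⟩ <;>
  · apply ext' <;> norm_num [V0, X, Y] <;> rfl

lemma V0_In (k : ZMod 8) : In (V0 k) := by
  obtain ⟨h0, h1, h2, h3, h4, h5, h6, h7⟩ := V0_eq
  have hk : k = 0 ∨ k = 1 ∨ k = 2 ∨ k = 3 ∨ k = 4 ∨ k = 5 ∨ k = 6 ∨ k = 7 := by
    revert k
    decide
  rcases hk with rfl | rfl | rfl | rfl | rfl | rfl | rfl | rfl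
  · rw [h0]; norm_num [In]
  · rw [h1]; norm_num [In]
  · rw [h2]; norm_num [In]
  · rw [h3]; norm_num [In]
  · rw [h4]; norm_num [In]
  · rw [h5]; norm_num [In]
  · rw [h6]; norm_num [In]
  · rw [h7]; norm_num [In]

theorem t1 : PStm1 := by
  intro z
  constructor
  · intro hz
    have h : R0 ⊆ {z : Plane | In z} := by
      apply convexHull_min _ convex_In
      rintro _ ⟨k, rfl⟩
      exact V0_In k
    exact h hz
  · rintro ⟨z1, z2, z3, z4, z5, z6, z7, z8⟩
    obtain ⟨h0, h1, h2, h3, h4, h5, h6, h7⟩ := V0_eq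
    have hc : Convex ℝ R0 := convex_convexHull ℝ _
    have hv : ∀ k, V0 k ∈ R0 := fun k => subset_convexHull ℝ _ ⟨k, rfl⟩
    have m0 := hv 0
    have m1 := hv 1
    have m2 := hv 2
    have m3 := hv 3
    have m4 := hv 4
    have m5 := hv 5
    have m6 := hv 6
    have m7 := hv 7
    rw [h0] at m0
    rw [h1] at m1
    rw [h2] at m2
    rw [h3] at m3
    rw [h4] at m4
    rw [h5] at m5
    rw [h6] at m6
    rw [h7] at m7
    by_cases c2 : det (pt 2 0) (pt 9 1) z ≤ 0
    · refine tri_mem hc m0 m1 m2 ?_ ?_ ?_ ?_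
      · norm_num [det]
      · simp only [det, pt_zero, pt_one] at *; linarith
      · simp only [det, pt_zero, pt_one] at *; linarith
      · simp only [det, pt_zero, pt_one] at *; linarith
    push Not at c2
    by_cases c3 : det (pt 2 0) (pt 13 3) z ≤ 0
    · refine tri_mem hc m0 m2 m3 ?_ ?_ ?_ ?_
      · norm_num [det]
      · simp only [det, pt_zero, pt_one] at *; linarith
      · simp only [det, pt_zero, pt_one] at *; linarith
      · simp only [det, pt_zero, pt_one] at *; linarith
    push Not at c3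
    by_cases c4 : det (pt 2 0) (pt 14 4) z ≤ 0
    · refine tri_mem hc m0 m3 m4 ?_ ?_ ?_ ?_
      · norm_num [det]
      · simp only [det, pt_zero, pt_one] at *; linarith
      · simp only [det, pt_zero, pt_one] at *; linarith
      · simp only [det, pt_zero, pt_one] at *; linarith
    push Not at c4
    by_cases c5 : det (pt 2 0) (pt 11 5) z ≤ 0
    · refine tri_mem hc m0 m4 m5 ?_ ?_ ?_ ?_
      · norm_num [det]
      · simp only [det, pt_zero, pt_one] at *; linarith
      · simp only [det, pt_zero, pt_one] at *; linarith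
      · simp only [det, pt_zero, pt_one] at *; linarith
    push Not at c5
    by_cases c6 : det (pt 2 0) (pt 5 3) z ≤ 0
    · refine tri_mem hc m0 m5 m6 ?_ ?_ ?_ ?_
      · norm_num [det]
      · simp only [det, pt_zero, pt_one] at *; linarith
      · simp only [det, pt_zero, pt_one] at *; linarith
      · simp only [det, pt_zero, pt_one] at *; linarith
    push Not at c6
    refine tri_mem hc m0 m6 m7 ?_ ?_ ?_ ?_
    · norm_num [det]
    · simp only [det, pt_zero, pt_one] at *; linarith
    · simp only [det, pt_zero, pt_one] at *; linarith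
    · simp only [det, pt_zero, pt_one] at *; linarith

end Q139.DT
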