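import Pool.Agent.Q139.DT.J8

namespace Q139.DT

/-- the tiles of the odd cycle -/
def cyc : ZMod 5 → Sym := (![⟨1, 1, 0, 0, by decide, by decide⟩, ⟨1, -1, 1, 1, by decide, by decide⟩,
  ⟨-1, -1, 4, 2, by decide, by decide⟩, ⟨1, 1, -2, 0, by decide, by decide⟩,
  ⟨1, -1, -1, 1, by decide, by decide⟩] : Fin 5 → Sym)

/-- the points of the odd cycle -/
def cycp : ZMod 5 → ℤ × ℤ := (![(6, 11), (6, 15), (3, 15), (-2, 11), (2, 3)] : Fin 5 → ℤ × ℤ)

lemma SIn_app (s t : ℤˣ) (m n : ℤ) (hm : Even m ↔ s = t) (hn : Even n ↔ s = t) (x y : ℤ) (u w : ℝ)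
    (hu : u = ((s : ℤ) : ℝ) * ((x : ℝ) - 4 * m)) (hw : w = ((t : ℤ) : ℝ) * ((y : ℝ) / 4 - 4 * n))
    (h : 0 < w ∧ u < 3 * w + 6 ∧ u < 2 * w + 7 ∧ u < w + 10 ∧ u < 26 - 3 * w ∧
    3 * w - 4 < u ∧ 2 * w - 1 < u ∧ 2 - w < u) :
    SIn (app (inv ⟨s, t, m, n, hm, hn⟩) (qp x y)) := by
  have e0 : app (inv ⟨s, t, m, n, hm, hn⟩) (qp x y) 0 = u := by
    rw [hu, app_zero]
    simp only [inv, qp, pt_zero]
    push_cast
    ring
  have e1 : app (inv ⟨s, t, m, n, hm, hn⟩) (qp x y) 1 = w := by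
    rw [hw, app_one]
    simp only [inv, qp, pt_one]
    push_cast
    ring
  unfold SIn
  rw [e0, e1]
  exact h

theorem t10' : ∀ t : ZMod 5, Odd (cycp t).2 ∧ SIn (app (inv (cyc t)) (qp (cycp t).1 (cycp t).2)) ∧
    SIn (app (inv (cyc (t + 1))) (qp (cycp t).1 (cycp t).2)) ∧ cyc t ≠ cyc (t + 1) := by
  intro t
  have ht : t = 0 ∨ t = 1 ∨ t = 2 ∨ t = 3 ∨ t = 4 := by
    revert t
    decide
  rcases ht with rfl | rfl | rfl | rfl | rfl
  · refine ⟨by decide, ?_, ?_, ?_⟩
    · refine SIn_app 1 1 0 0 _ _ 6 11 6 (11 / 4) ?_ ?_ ?_ <;> norm_num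
    · refine SIn_app 1 (-1) 1 1 _ _ 6 11 2 (5 / 4) ?_ ?_ ?_ <;> norm_num
    · intro h
      have := congrArg Sym.m h
      revert this
      decide
  · refine ⟨by decide, ?_, ?_, ?_⟩
    · refine SIn_app 1 (-1) 1 1 _ _ 6 15 2 (1 / 4) ?_ ?_ ?_ <;> norm_num
    · refine SIn_app (-1) (-1) 4 2 _ _ 6 15 10 (17 / 4) ?_ ?_ ?_ <;> norm_num
    · intro h
      have := congrArg Sym.m h
      revert this
      decide
  · refine ⟨by decide, ?_, ?_, ?_⟩
    · refine SIn_app (-1) (-1) 4 2 _ _ 3 15 13 (17 / 4) ?_ ?_ ?_ <;> norm_num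
    · refine SIn_app 1 1 (-2) 0 _ _ 3 15 11 (15 / 4) ?_ ?_ ?_ <;> norm_num
    · intro h
      have := congrArg Sym.m h
      revert this
      decide
  · refine ⟨by decide, ?_, ?_, ?_⟩
    · refine SIn_app 1 1 (-2) 0 _ _ (-2) 11 6 (11 / 4) ?_ ?_ ?_ <;> norm_num
    · refine SIn_app 1 (-1) (-1) 1 _ _ (-2) 11 2 (5 / 4) ?_ ?_ ?_ <;> norm_num
    · intro h
      have := congrArg Sym.m h
      revert this
      decide
  · refine ⟨by decide, ?_, ?_, ?_⟩
    · refine SIn_app 1 (-1) (-1) 1 _ _ 2 3 6 (13 / 4) ?_ ?_ ?_ <;> norm_num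
    · refine SIn_app 1 1 0 0 _ _ 2 3 2 (3 / 4) ?_ ?_ ?_ <;> norm_num
    · intro h
      have := congrArg Sym.m h
      revert this
      decide

lemma off_qp (x y : ℤ) (hy : Odd y) (h : Sym) : qp x y ∉ frontier (T h).region := by
  rw [frontier_T, mem_image_iso, t3]
  exact t9 x y h hy

lemma mem_int (g : Sym) (z : Plane) : z ∈ interior (T g).region ↔ SIn (app (inv g) z) := by
  rw [interior_T, mem_image_iso, t2]

lemma app_qp (h : Sym) (x y : ℤ) :
    app h (qp x y) = qp (h.σ * x + 4 * h.m) (h.τ * y + 16 * h.n) := by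
  apply ext'
  · simp only [app_zero, qp, pt_zero]
    push_cast
    ring
  · simp only [app_one, qp, pt_one]
    push_cast
    ring

lemma exists_pt (h : Sym) : ∃ x y : ℤ, Odd y ∧ qp x y ∈ interior (T h).region := by
  refine ⟨h.σ * 6 + 4 * h.m, h.τ * 11 + 16 * h.n, ?_, ?_⟩
  · rcases units_cases h.τ with e | e <;> rw [e]
    · exact ⟨5 + 8 * h.n, by push_cast; ring⟩
    · exact ⟨-6 + 8 * h.n, by push_cast; ring⟩
  · rw [← app_qp, mem_int, app_inv_app]
    norm_num [SIn, qp]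

lemma mem_region_of_int (g : Sym) (z : Plane) (hz : z ∈ interior (T g).region) :
    z ∈ (T g).region := interior_subset hz

theorem t_irr (h5 : PStm5) : Irreducible T 2 := by
  intro r f D hD hall
  have hfin : ∀ c (z : Plane), {i : {i // f i = c} | z ∈ interior (T i).region}.Finite := by
    intro c z
    refine ((hall c).1 {z} Bornology.isBounded_singleton).subset ?_
    intro i hi
    exact ⟨z, interior_subset hi, rfl⟩
  -- two tiles of one class do not overlap
  have c1 : ∀ (x y : ℤ) (g h : Sym), Odd y → qp x y ∈ interior (T g).region →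
      qp x y ∈ interior (T h).region → g ≠ h → f g ≠ f h := by
    intro x y g h hy hg hh hne hf
    have h1 : {i : {i // f i = f g} | qp x y ∈ interior (T i).region}.ncard = D (f g) :=
      (hall (f g)).2 (qp x y) (fun i => off_qp x y hy i)
    have h2 : 1 < {i : {i // f i = f g} | qp x y ∈ interior (T i).region}.ncard := by
      rw [Set.one_lt_ncard (hfin _ _)]
      exact ⟨⟨g, rfl⟩, hg, ⟨h, hf.symm⟩, hh, fun e => hne (congrArg Subtype.val e)⟩
    have h3 := hD (f g)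
    omega
  -- every nonempty class has density one
  have c2 : ∀ h : Sym, D (f h) = 1 := by
    intro h
    obtain ⟨x, y, hy, hz⟩ := exists_pt h
    have h1 : {i : {i // f i = f h} | qp x y ∈ interior (T i).region}.ncard = D (f h) :=
      (hall (f h)).2 (qp x y) (fun i => off_qp x y hy i)
    have h2 : 0 < {i : {i // f i = f h} | qp x y ∈ interior (T i).region}.ncard := by
      rw [Set.ncard_pos (hfin _ _)]
      exact ⟨⟨h, rfl⟩, hz⟩
    have h3 := hD (f h)
    omega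
  have hint : ∀ t, qp (cycp t).1 (cycp t).2 ∈ interior (T (cyc t)).region ∧
      qp (cycp t).1 (cycp t).2 ∈ interior (T (cyc (t + 1))).region := by
    intro t
    obtain ⟨-, a, b, -⟩ := t10' t
    exact ⟨(mem_int _ _).2 a, (mem_int _ _).2 b⟩
  have hne : ∀ t, f (cyc t) ≠ f (cyc (t + 1)) := by
    intro t
    exact c1 _ _ _ _ (t10' t).1 (hint t).1 (hint t).2 (t10' t).2.2.2
  -- only two classes
  have c3 : ∀ h : Sym, f h = f (cyc 0) ∨ f h = f (cyc 1) := by
    intro h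
    have hodd := (t10' 0).1
    have h1 : {i : {i // f i = f h} |
        qp (cycp 0).1 (cycp 0).2 ∈ interior (T i).region}.ncard = D (f h) :=
      (hall (f h)).2 (qp (cycp 0).1 (cycp 0).2) (fun i => off_qp _ _ hodd i)
    rw [c2 h] at h1
    have h2 : 0 < {i : {i // f i = f h} |
        qp (cycp 0).1 (cycp 0).2 ∈ interior (T i).region}.ncard := by omega
    rw [Set.ncard_pos (hfin _ _)] at h2
    obtain ⟨⟨k, hk⟩, hk2⟩ := h2
    have h4 := h5 (qp (cycp 0).1 (cycp 0).2) (fun i => off_qp _ _ hodd i)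
    have h6 : ({cyc 0, cyc 1} : Set Sym) = {g | qp (cycp 0).1 (cycp 0).2 ∈ interior (T g).region} := by
      apply Set.eq_of_subset_of_ncard_le
      · rintro g (rfl | rfl)
        · exact (hint 0).1
        · exact (hint 0).2
      · rw [h4, Set.ncard_pair (show cyc 0 ≠ cyc 1 from (t10' 0).2.2.2)]
      · exact Set.finite_of_ncard_ne_zero (by rw [h4]; norm_num)
    have h7 : k ∈ ({cyc 0, cyc 1} : Set Sym) := by
      rw [h6]
      exact hk2
    rcases h7 with rfl | rfl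
    · left
      exact hk.symm
    · right
      exact hk.symm
  have n0 := hne 0
  have n1 := hne 1
  have n2 := hne 2
  have n3 := hne 3
  have n4 := hne 4
  have q1 : (0 : ZMod 5) + 1 = 1 := rfl
  have q2 : (1 : ZMod 5) + 1 = 2 := rfl
  have q3 : (2 : ZMod 5) + 1 = 3 := rfl
  have q4 : (3 : ZMod 5) + 1 = 4 := rfl
  have q5 : (4 : ZMod 5) + 1 = 0 := rfl
  rw [q1] at n0
  rw [q2] at n1
  rw [q3] at n2
  rw [q4] at n3
  rw [q5] at n4
  have e2 : f (cyc 2) = f (cyc 0) := by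
    rcases c3 (cyc 2) with e | e
    · exact e
    · exact absurd e.symm n1
  have e3 : f (cyc 3) = f (cyc 1) := by
    rcases c3 (cyc 3) with e | e
    · exact absurd (e2.trans e.symm) n2
    · exact e
  rcases c3 (cyc 4) with e | e
  · exact n4 e
  · exact n3 (e3.trans e.symm)

end Q139.DT
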