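import Pool.Agent.Q139.DT.J1

namespace Q139.DT

lemma exists_shift {S : Set Plane} {z : Plane} (hz : z ∈ interior S) (d : Plane) :
    ∃ t : ℝ, 0 < t ∧ z + t • d ∈ S := by
  have hc : Filter.Tendsto (fun t : ℝ => z + t • d) (nhds 0) (nhds (z + (0 : ℝ) • d)) := by
    apply Continuous.tendsto
    fun_prop
  rw [zero_smul, add_zero] at hc
  have h1 : ∀ᶠ t : ℝ in nhds 0, z + t • d ∈ S :=
    hc.eventually (mem_interior_iff_mem_nhds.1 hz)
  obtain ⟨ε, hε, h2⟩ := Metric.eventually_nhds_iff.1 h1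
  refine ⟨ε / 2, by positivity, h2 ?_⟩
  rw [Real.dist_eq, sub_zero, abs_of_pos (by positivity)]
  linarith

lemma cont0 : Continuous (fun z : Plane => z 0) := by fun_prop
lemma cont1 : Continuous (fun z : Plane => z 1) := by fun_prop

theorem t2 : PStm2 := by
  intro z
  constructor
  · intro hz
    obtain ⟨t, ht, h1⟩ := exists_shift hz (pt 1 0)
    obtain ⟨s, hs, h2⟩ := exists_shift hz (pt (-1) 0)
    obtain ⟨r, hr, h3⟩ := exists_shift hz (pt 0 (-1))
    rw [t1] at h1 h2 h3
    have e1 : (z + t • pt 1 0) 0 = z 0 + t * 1 := rfl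
    have e1' : (z + t • pt 1 0) 1 = z 1 + t * 0 := rfl
    have e2 : (z + s • pt (-1) 0) 0 = z 0 + s * (-1) := rfl
    have e2' : (z + s • pt (-1) 0) 1 = z 1 + s * 0 := rfl
    have e3' : (z + r • pt 0 (-1)) 1 = z 1 + r * (-1) := rfl
    simp only [In, e1, e1', e2, e2', e3'] at h1 h2 h3
    obtain ⟨a1, a2, a3, a4, a5, a6, a7, a8⟩ := h1
    obtain ⟨b1, b2, b3, b4, b5, b6, b7, b8⟩ := h2
    obtain ⟨c1, -⟩ := h3
    exact ⟨by linarith, by linarith, by linarith, by linarith, by linarith, by linarith,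
      by linarith, by linarith⟩
  · intro hz
    have ho : IsOpen {z : Plane | SIn z} := by
      have c0 := cont0
      have c1 := cont1
      refine IsOpen.and (isOpen_lt (by fun_prop) (by fun_prop)) ?_
      refine IsOpen.and (isOpen_lt (by fun_prop) (by fun_prop)) ?_
      refine IsOpen.and (isOpen_lt (by fun_prop) (by fun_prop)) ?_
      refine IsOpen.and (isOpen_lt (by fun_prop) (by fun_prop)) ?_
      refine IsOpen.and (isOpen_lt (by fun_prop) (by fun_prop)) ?_
      refine IsOpen.and (isOpen_lt (by fun_prop) (by fun_prop)) ?_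
      refine IsOpen.and (isOpen_lt (by fun_prop) (by fun_prop)) ?_
      exact isOpen_lt (by fun_prop) (by fun_prop)
    refine mem_interior.2 ⟨_, ?_, ho, hz⟩
    intro w hw
    obtain ⟨a1, a2, a3, a4, a5, a6, a7, a8⟩ := hw
    exact (t1 w).2 ⟨a1.le, a2.le, a3.le, a4.le, a5.le, a6.le, a7.le, a8.le⟩

lemma R0_eq : R0 = {z : Plane | In z} := Set.ext t1

theorem t3 : PStm3 := by
  intro z
  have hcl : IsClosed R0 := by
    rw [R0_eq]
    refine IsClosed.and (isClosed_le (by fun_prop) (by fun_prop)) ?_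
    refine IsClosed.and (isClosed_le (by fun_prop) (by fun_prop)) ?_
    refine IsClosed.and (isClosed_le (by fun_prop) (by fun_prop)) ?_
    refine IsClosed.and (isClosed_le (by fun_prop) (by fun_prop)) ?_
    refine IsClosed.and (isClosed_le (by fun_prop) (by fun_prop)) ?_
    refine IsClosed.and (isClosed_le (by fun_prop) (by fun_prop)) ?_
    refine IsClosed.and (isClosed_le (by fun_prop) (by fun_prop)) ?_
    exact isClosed_le (by fun_prop) (by fun_prop)
  rw [hcl.frontier_eq, Set.mem_sdiff, t1, t2]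

end Q139.DT
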