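import Pool.Agent.Q139.DT.Stm

namespace Q139.DT

lemma coord_le (w : Plane) (i : Fin 2) : |w i| ≤ ‖w‖ := by
  have h := EuclideanSpace.norm_eq w
  rw [h]
  apply Real.le_sqrt_of_sq_le
  rw [sq_abs, Fin.sum_univ_two]
  simp only [Real.norm_eq_abs, sq_abs]
  fin_cases i
  · show w 0 ^ 2 ≤ _
    nlinarith [sq_nonneg (w 1)]
  · show w 1 ^ 2 ≤ _
    nlinarith [sq_nonneg (w 0)]

lemma In_box {z : Plane} (h : In z) : 1 ≤ z 0 ∧ z 0 ≤ 14 ∧ 0 ≤ z 1 ∧ z 1 ≤ 5 := by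
  obtain ⟨h1, h2, h3, h4, h5, h6, h7, h8⟩ := h
  refine ⟨by linarith, by linarith, by linarith, by linarith⟩

theorem t4 (h1 : PStm1) : PStm4 := by
  intro K hK
  obtain ⟨R, hR⟩ := hK.exists_norm_le
  set N : ℤ := ⌈|R|⌉ + 14 with hN
  let F : Sym → ℤˣ × ℤˣ × ℤ × ℤ := fun g => (g.σ, g.τ, g.m, g.n)
  have hF : Function.Injective F := by
    intro g h hgh
    simp only [F, Prod.mk.injEq] at hgh
    exact Sym.ext hgh.1 hgh.2.1 hgh.2.2.1 hgh.2.2.2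
  refine Set.Finite.of_finite_image (f := F) ?_ hF.injOn
  refine Set.Finite.subset ((Finset.univ : Finset ℤˣ) ×ˢ (Finset.univ : Finset ℤˣ) ×ˢ
      Finset.Icc (-N) N ×ˢ Finset.Icc (-N) N : Finset (ℤˣ × ℤˣ × ℤ × ℤ)).finite_toSet ?_
  rintro _ ⟨g, ⟨w, hw1, hw2⟩, rfl⟩
  rw [region_T, mem_image_iso, h1] at hw1
  obtain ⟨b1, b2, b3, b4⟩ := In_box hw1
  have hw : ‖w‖ ≤ |R| := (hR w hw2).trans (le_abs_self R)
  have c0 := abs_le.mp ((coord_le w 0).trans hw)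
  have c1 := abs_le.mp ((coord_le w 1).trans hw)
  have hc : |R| ≤ (⌈|R|⌉ : ℝ) := Int.le_ceil _
  have hNR : (N : ℝ) = (⌈|R|⌉ : ℝ) + 14 := by rw [hN]; push_cast; ring
  have hR0 : 0 ≤ |R| := abs_nonneg R
  simp only [Finset.coe_product, Finset.coe_univ, Finset.coe_Icc, Set.mem_prod, Set.mem_univ,
    Set.mem_Icc, true_and, F]
  simp only [app_zero, app_one, inv] at b1 b2 b3 b4
  have hm : |(g.m : ℝ)| ≤ N := by
    rw [abs_le]
    rcases units_cases g.σ with hs | hs <;> rw [hs] at b1 b2 <;> push_cast at b1 b2 <;>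
      constructor <;> linarith
  have hn : |(g.n : ℝ)| ≤ N := by
    rw [abs_le]
    rcases units_cases g.τ with hs | hs <;> rw [hs] at b3 b4 <;> push_cast at b3 b4 <;>
      constructor <;> linarith
  rw [abs_le] at hm hn
  refine ⟨⟨?_, ?_⟩, ⟨?_, ?_⟩⟩
  · exact_mod_cast hm.1
  · exact_mod_cast hm.2
  · exact_mod_cast hn.1
  · exact_mod_cast hn.2

end Q139.DT
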