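import Pool.Agent.Q139.DT.Asm

namespace Q139.DT

lemma even2 (i : ℤ) : Even (2 * i) := ⟨i, by ring⟩
lemma odd1 (i : ℤ) : ¬ Even (1 + 2 * i) := by
  rw [Int.not_even_iff_odd]
  exact ⟨i, by ring⟩
lemma odd5 (i : ℤ) : ¬ Even (5 + 2 * i) := by
  rw [Int.not_even_iff_odd]
  exact ⟨i + 2, by ring⟩

/-- first type -/
def G1 (i : ℤ) : Sym := ⟨1, 1, 2 * i, 0, by simp, by simp⟩
/-- second type -/
def G2 (i : ℤ) : Sym := ⟨-1, 1, 5 + 2 * i, -1, by simp [odd5], by decide⟩
/-- third type -/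
def G3 (i : ℤ) : Sym := ⟨1, -1, 1 + 2 * i, 1, by simp [odd1], by decide⟩

/-- first coordinate in the frame of the tile -/
def cu (g : Sym) (x : Plane) : ℝ := ((g.σ : ℤ) : ℝ) * (x 0 - 4 * (g.m : ℝ))
/-- second coordinate in the frame of the tile -/
def cw (g : Sym) (x : Plane) : ℝ := ((g.τ : ℤ) : ℝ) * (x 1 - 4 * (g.n : ℝ))

lemma app_inv_zero (g : Sym) (x : Plane) : app (inv g) x 0 = cu g x := by
  rw [app_zero]
  simp only [inv, cu]
  push_cast
  ring

lemma app_inv_one (g : Sym) (x : Plane) : app (inv g) x 1 = cw g x := by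
  rw [app_one]
  simp only [inv, cw]
  push_cast
  ring

lemma SIn_iff (g : Sym) (x : Plane) (u w : ℝ) (hu : cu g x = u) (hw : cw g x = w) :
    SIn (app (inv g) x) ↔ (0 < w ∧ u < 3 * w + 6 ∧ u < 2 * w + 7 ∧ u < w + 10 ∧ u < 26 - 3 * w ∧
    3 * w - 4 < u ∧ 2 * w - 1 < u ∧ 2 - w < u) := by
  unfold SIn
  rw [app_inv_zero, app_inv_one, hu, hw]

lemma In_iff (g : Sym) (x : Plane) (u w : ℝ) (hu : cu g x = u) (hw : cw g x = w) :
    In (app (inv g) x) ↔ (0 ≤ w ∧ u ≤ 3 * w + 6 ∧ u ≤ 2 * w + 7 ∧ u ≤ w + 10 ∧ u ≤ 26 - 3 * w ∧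
    3 * w - 4 ≤ u ∧ 2 * w - 1 ≤ u ∧ 2 - w ≤ u) := by
  unfold In
  rw [app_inv_zero, app_inv_one, hu, hw]

lemma G1u (i : ℤ) (x : Plane) : cu (G1 i) x = x 0 - 8 * i := by
  simp [cu, G1]
  ring
lemma G1w (i : ℤ) (x : Plane) : cw (G1 i) x = x 1 := by
  simp [cw, G1]
lemma G2u (i : ℤ) (x : Plane) : cu (G2 i) x = 20 - (x 0 - 8 * i) := by
  simp [cu, G2]
  ring
lemma G2w (i : ℤ) (x : Plane) : cw (G2 i) x = x 1 + 4 := by
  simp [cw, G2]
lemma G3u (i : ℤ) (x : Plane) : cu (G3 i) x = x 0 - 8 * i - 4 := by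
  simp [cu, G3]
  ring
lemma G3w (i : ℤ) (x : Plane) : cw (G3 i) x = 4 - x 1 := by
  simp [cw, G3]

/-- classification of the tiles containing a point with `0 ≤ y ≤ 2` -/
lemma classify (x : Plane) (h0 : 0 ≤ x 1) (h2 : x 1 ≤ 2) (g : Sym) (hg : SIn (app (inv g) x)) :
    (∃ i, g = G1 i) ∨ (∃ i, g = G2 i) ∨ (∃ i, g = G3 i) := by
  rw [SIn_iff g x _ _ rfl rfl] at hg
  obtain ⟨a1, a2, a3, a4, a5, a6, a7, a8⟩ := hg
  have hw5 : cw g x < 5 := by linarith
  obtain ⟨s, t, m, n, hm, hn⟩ := g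
  simp only [cw] at a1 hw5
  rcases units_cases t with rfl | rfl
  · have e : (((1 : ℤˣ) : ℤ) : ℝ) = 1 := by norm_num
    rw [e, one_mul] at a1 hw5
    have n1 : (-2 : ℝ) < n := by linarith
    have n2 : (n : ℝ) < 1 := by linarith
    have n1' : -2 < n := by exact_mod_cast n1
    have n2' : n < 1 := by exact_mod_cast n2
    have hn' : n = 0 ∨ n = -1 := by omega
    rcases hn' with rfl | rfl
    · left
      have hs : s = 1 := hn.1 (by simp)
      subst hs
      obtain ⟨i, hi⟩ := hm.2 rfl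
      refine ⟨i, ?_⟩
      subst hi
      unfold G1
      congr 1
      ring
    · right
      left
      have hs : s ≠ 1 := fun h => absurd (hn.2 h) (by decide)
      have hs' : s = -1 := (units_cases s).resolve_left hs
      subst hs'
      have hmo : ¬ Even m := fun h => hs (hm.1 h)
      rw [Int.not_even_iff_odd] at hmo
      obtain ⟨i, hi⟩ := hmo
      refine ⟨i - 2, ?_⟩
      subst hi
      unfold G2
      congr 1
      ring
  · have e : (((-1 : ℤˣ) : ℤ) : ℝ) = -1 := by norm_num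
    rw [e] at a1 hw5
    have n1 : (0 : ℝ) < n := by linarith
    have n2 : (n : ℝ) < 2 := by linarith
    have n1' : 0 < n := by exact_mod_cast n1
    have n2' : n < 2 := by exact_mod_cast n2
    have hn' : n = 1 := by omega
    subst hn'
    right
    right
    have hs : s ≠ -1 := fun h => absurd (hn.2 h) (by decide)
    have hs' : s = 1 := (units_cases s).resolve_right hs
    subst hs'
    have hmo : ¬ Even m := fun h => hs (hm.1 h)
    rw [Int.not_even_iff_odd] at hmo
    obtain ⟨i, hi⟩ := hmo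
    refine ⟨i, ?_⟩
    subst hi
    unfold G3
    congr 1
    ring

lemma case_b (x : Plane) (h1 : 1 ≤ x 1) (h2 : x 1 ≤ 2)
    (off : ∀ g, ¬ (In (app (inv g) x) ∧ ¬ SIn (app (inv g) x))) :
    {g | SIn (app (inv g) x)}.ncard = 2 := by
  obtain ⟨i, hi⟩ : ∃ i : ℤ, i = ⌊(x 0 - (2 * x 1 - 1)) / 8⌋ := ⟨_, rfl⟩
  obtain ⟨j, hj⟩ : ∃ j : ℤ, j = ⌊(x 0 - (11 - 2 * x 1)) / 8⌋ := ⟨_, rfl⟩
  have i1 : (i : ℝ) ≤ (x 0 - (2 * x 1 - 1)) / 8 := by rw [hi]; exact Int.floor_le _
  have i2 : (x 0 - (2 * x 1 - 1)) / 8 < (i : ℝ) + 1 := by rw [hi]; exact Int.lt_floor_add_one _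
  have j1 : (j : ℝ) ≤ (x 0 - (11 - 2 * x 1)) / 8 := by rw [hj]; exact Int.floor_le _
  have j2 : (x 0 - (11 - 2 * x 1)) / 8 < (j : ℝ) + 1 := by rw [hj]; exact Int.lt_floor_add_one _
  have i3 : 2 * x 1 - 1 < x 0 - 8 * i := by
    rcases lt_or_eq_of_le (show 2 * x 1 - 1 ≤ x 0 - 8 * i by linarith) with h | h
    · exact h
    · exfalso
      apply off (G1 i)
      rw [In_iff _ x _ _ (G1u i x) (G1w i x), SIn_iff _ x _ _ (G1u i x) (G1w i x)]
      refine ⟨⟨by linarith, by linarith, by linarith, by linarith, by linarith, by linarith,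
        by linarith, by linarith⟩, ?_⟩
      rintro ⟨-, -, -, -, -, -, h', -⟩
      linarith
  have j3 : 11 - 2 * x 1 < x 0 - 8 * j := by
    rcases lt_or_eq_of_le (show 11 - 2 * x 1 ≤ x 0 - 8 * j by linarith) with h | h
    · exact h
    · exfalso
      apply off (G3 j)
      rw [In_iff _ x _ _ (G3u j x) (G3w j x), SIn_iff _ x _ _ (G3u j x) (G3w j x)]
      refine ⟨⟨by linarith, by linarith, by linarith, by linarith, by linarith, by linarith,
        by linarith, by linarith⟩, ?_⟩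
      rintro ⟨-, -, -, -, -, -, h', -⟩
      linarith
  have hne : G1 i ≠ G3 j := by
    intro h
    have := congrArg Sym.τ h
    revert this
    simp only [G1, G3]
    decide
  have hset : {g | SIn (app (inv g) x)} = {G1 i, G3 j} := by
    ext g
    constructor
    · intro hg
      rcases classify x (by linarith) h2 g hg with ⟨k, rfl⟩ | ⟨k, rfl⟩ | ⟨k, rfl⟩
      · left
        rw [Set.mem_ofPred_eq, SIn_iff _ x _ _ (G1u k x) (G1w k x)] at hg
        obtain ⟨a1, a2, a3, a4, a5, a6, a7, a8⟩ := hg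
        have k1 : (k : ℝ) < i + 1 := by linarith
        have k2 : (i : ℝ) < k + 1 := by linarith
        have k1' : k < i + 1 := by exact_mod_cast k1
        have k2' : i < k + 1 := by exact_mod_cast k2
        have : k = i := by omega
        rw [this]
      · exfalso
        rw [Set.mem_ofPred_eq, SIn_iff _ x _ _ (G2u k x) (G2w k x)] at hg
        obtain ⟨a1, a2, a3, a4, a5, a6, a7, a8⟩ := hg
        linarith
      · right
        rw [Set.mem_ofPred_eq, SIn_iff _ x _ _ (G3u k x) (G3w k x)] at hg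
        obtain ⟨a1, a2, a3, a4, a5, a6, a7, a8⟩ := hg
        have k1 : (k : ℝ) < j + 1 := by linarith
        have k2 : (j : ℝ) < k + 1 := by linarith
        have k1' : k < j + 1 := by exact_mod_cast k1
        have k2' : j < k + 1 := by exact_mod_cast k2
        have : k = j := by omega
        rw [this]
        rfl
    · rintro (rfl | rfl)
      · rw [Set.mem_ofPred_eq, SIn_iff _ x _ _ (G1u i x) (G1w i x)]
        exact ⟨by linarith, by linarith, by linarith, by linarith, by linarith, by linarith,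
          by linarith, by linarith⟩
      · rw [Set.mem_ofPred_eq, SIn_iff _ x _ _ (G3u j x) (G3w j x)]
        exact ⟨by linarith, by linarith, by linarith, by linarith, by linarith, by linarith,
          by linarith, by linarith⟩
  rw [hset, Set.ncard_pair hne]

open Classical in
/-- the tile with index `i` -/
noncomputable def Fi (x : Plane) (i : ℤ) : Sym :=
  if x 0 - 8 * i < 6 + 3 * x 1 then G1 i else if x 0 - 8 * i < 12 - 3 * x 1 then G2 i else G3 i

lemma Fi_SIn (x : Plane) (h0 : 0 ≤ x 1) (h1 : x 1 ≤ 1)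
    (off : ∀ g, ¬ (In (app (inv g) x) ∧ ¬ SIn (app (inv g) x))) (i : ℤ)
    (a1 : 2 - x 1 ≤ x 0 - 8 * i) (a2 : x 0 - 8 * i < 18 - x 1) : SIn (app (inv (Fi x i)) x) := by
  by_contra hcon
  refine off (Fi x i) ⟨?_, hcon⟩
  unfold Fi
  split_ifs with c1 c2
  · rw [In_iff _ x _ _ (G1u i x) (G1w i x)]
    exact ⟨by linarith, by linarith, by linarith, by linarith, by linarith, by linarith,
          by linarith, by linarith⟩
  · rw [In_iff _ x _ _ (G2u i x) (G2w i x)]
    push Not at c1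
    exact ⟨by linarith, by linarith, by linarith, by linarith, by linarith, by linarith,
          by linarith, by linarith⟩
  · rw [In_iff _ x _ _ (G3u i x) (G3w i x)]
    push Not at c1 c2
    exact ⟨by linarith, by linarith, by linarith, by linarith, by linarith, by linarith,
          by linarith, by linarith⟩

lemma Fi_inj (x : Plane) (i j : ℤ) (h : Fi x i = Fi x j) : i = j := by
  have hs := congrArg Sym.σ h
  have ht := congrArg Sym.τ h
  have hm := congrArg Sym.m h
  revert hs ht hm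
  unfold Fi
  have d1 : ¬ ((1 : ℤˣ) = -1) := by decide
  have d2 : ¬ ((-1 : ℤˣ) = 1) := by decide
  split_ifs <;> simp only [G1, G2, G3] <;> intro hs ht hm <;>
    first
      | omega
      | exact absurd hs d1
      | exact absurd hs d2
      | exact absurd ht d1
      | exact absurd ht d2

lemma case_a (x : Plane) (h0 : 0 ≤ x 1) (h1 : x 1 ≤ 1)
    (off : ∀ g, ¬ (In (app (inv g) x) ∧ ¬ SIn (app (inv g) x))) :
    {g | SIn (app (inv g) x)}.ncard = 2 := by
  obtain ⟨k, hk⟩ : ∃ k : ℤ, k = ⌊(x 0 - (2 - x 1)) / 8⌋ := ⟨_, rfl⟩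
  have k1 : (k : ℝ) ≤ (x 0 - (2 - x 1)) / 8 := by rw [hk]; exact Int.floor_le _
  have k2 : (x 0 - (2 - x 1)) / 8 < (k : ℝ) + 1 := by rw [hk]; exact Int.lt_floor_add_one _
  have key : ∀ i : ℤ, 2 - x 1 < x 0 - 8 * i → x 0 - 8 * i < 18 - x 1 → i = k ∨ i = k - 1 := by
    intro i b1 b2
    have c1 : (i : ℝ) < k + 1 := by linarith
    have c2 : (k : ℝ) - 2 < i := by linarith
    have c1' : i < k + 1 := by exact_mod_cast c1
    have c2' : k - 2 < i := by exact_mod_cast c2
    omega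
  have hne : Fi x k ≠ Fi x (k - 1) := fun h => by
    have := Fi_inj x _ _ h
    omega
  have hset : {g | SIn (app (inv g) x)} = {Fi x k, Fi x (k - 1)} := by
    ext g
    constructor
    · intro hg
      have hmain : ∃ i, g = Fi x i ∧ 2 - x 1 < x 0 - 8 * i ∧ x 0 - 8 * i < 18 - x 1 := by
        rcases classify x h0 (by linarith) g hg with ⟨i, rfl⟩ | ⟨i, rfl⟩ | ⟨i, rfl⟩
        · rw [Set.mem_ofPred_eq, SIn_iff _ x _ _ (G1u i x) (G1w i x)] at hg
          obtain ⟨a1, a2, a3, a4, a5, a6, a7, a8⟩ := hg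
          refine ⟨i, ?_, by linarith, by linarith⟩
          unfold Fi
          rw [if_pos (by linarith)]
        · rw [Set.mem_ofPred_eq, SIn_iff _ x _ _ (G2u i x) (G2w i x)] at hg
          obtain ⟨a1, a2, a3, a4, a5, a6, a7, a8⟩ := hg
          refine ⟨i, ?_, by linarith, by linarith⟩
          unfold Fi
          rw [if_neg (by linarith), if_pos (by linarith)]
        · rw [Set.mem_ofPred_eq, SIn_iff _ x _ _ (G3u i x) (G3w i x)] at hg
          obtain ⟨a1, a2, a3, a4, a5, a6, a7, a8⟩ := hg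
          refine ⟨i, ?_, by linarith, by linarith⟩
          unfold Fi
          rw [if_neg (by linarith), if_neg (by linarith)]
      obtain ⟨i, rfl, b1, b2⟩ := hmain
      rcases key i b1 b2 with rfl | rfl
      · left
        rfl
      · right
        rfl
    · rintro (rfl | rfl)
      · exact Fi_SIn x h0 h1 off k (by linarith) (by linarith)
      · refine Fi_SIn x h0 h1 off (k - 1) ?_ ?_ <;> push_cast <;> linarith
  rw [hset, Set.ncard_pair hne]

lemma exists_move (x : Plane) : ∃ h : Sym, 0 ≤ app h x 1 ∧ app h x 1 ≤ 2 := by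
  obtain ⟨k, hk⟩ : ∃ k : ℤ, k = ⌊x 1 / 8⌋ := ⟨_, rfl⟩
  have k1 : (k : ℝ) ≤ x 1 / 8 := by rw [hk]; exact Int.floor_le _
  have k2 : x 1 / 8 < (k : ℝ) + 1 := by rw [hk]; exact Int.lt_floor_add_one _
  by_cases c1 : x 1 - 8 * k ≤ 2
  · refine ⟨⟨1, 1, 0, 2 * (-k), by simp, by simp⟩, ?_⟩
    rw [app_one]
    push_cast
    constructor <;> linarith
  by_cases c2 : x 1 - 8 * k ≤ 4
  · refine ⟨⟨1, -1, 1, 1 + 2 * k, by decide, by simp [odd1]⟩, ?_⟩
    rw [app_one]
    push_cast
    constructor <;> linarith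
  by_cases c3 : x 1 - 8 * k ≤ 6
  · refine ⟨⟨-1, 1, 1, 1 + 2 * (-1 - k), by decide, by simp [odd1]⟩, ?_⟩
    rw [app_one]
    push_cast
    constructor <;> linarith
  · refine ⟨⟨-1, -1, 0, 2 * (1 + k), by simp, by simp⟩, ?_⟩
    rw [app_one]
    push_cast
    constructor <;> linarith

theorem t5 : PStm5 := by
  intro x hx
  have off : ∀ g, ¬ (In (app (inv g) x) ∧ ¬ SIn (app (inv g) x)) := by
    intro g
    rw [← mem_fr]
    exact hx g
  have hset : {g | x ∈ interior (T g).region} = {g | SIn (app (inv g) x)} := by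
    ext g
    exact mem_int g x
  rw [hset]
  obtain ⟨h, h0, h2⟩ := exists_move x
  have off' : ∀ g, ¬ (In (app (inv g) (app h x)) ∧ ¬ SIn (app (inv g) (app h x))) := by
    intro g
    rw [← inv_mul_app]
    exact off _
  have himg : {g | SIn (app (inv g) (app h x))} = mul h '' {g | SIn (app (inv g) x)} := by
    ext g
    constructor
    · intro hg
      refine ⟨mul (inv h) g, ?_, mul_inv_cancel_left' h g⟩
      rw [Set.mem_ofPred_eq, inv_mul_app]
      exact hg
    · rintro ⟨k, hk, rfl⟩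
      rw [Set.mem_ofPred_eq, ← inv_mul_app, inv_mul_cancel_left']
      exact hk
  have hinj : Function.Injective (mul h) := (lperm h).injective
  rw [← Set.ncard_image_of_injective _ hinj, ← himg]
  rcases le_total (app h x 1) 1 with c | c
  · exact case_a _ h0 c off'
  · exact case_b _ c h2 off'

end Q139.DT
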