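import Pool.Agent.Q139.DT.Stm


namespace Q139.DT.J6

open Q139.DT

/-- coefficients of the eight inequalities -/
def al : Fin 8 → ℤ := ![0, -1, -1, -1, -1, 1, 1, 1]
def be : Fin 8 → ℤ := ![1, 3, 2, 1, -3, -3, -2, 1]
def ga : Fin 8 → ℤ := ![0, 6, 7, 10, 26, 4, 1, -2]
/-- ranges of the first coordinate on the eight sides -/
def lo : Fin 8 → ℤ := ![2, 6, 9, 13, 11, 5, 1, 1]
def hi : Fin 8 → ℤ := ![6, 9, 13, 14, 14, 11, 5, 2]

/-- the affine function of the side `j` -/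
def ell (j : Fin 8) (w : Plane) : ℝ := (al j : ℝ) * w 0 + (be j : ℝ) * w 1 + (ga j : ℝ)

lemma exists_eq {w : Plane} (h : In w) (h' : ¬ SIn w) : ∃ j : Fin 8, ell j w = 0 := by
  by_contra hc
  push Not at hc
  apply h'
  obtain ⟨h0, h1, h2, h3, h4, h5, h6, h7⟩ := h
  have c0 := hc 0
  have c1 := hc 1
  have c2 := hc 2
  have c3 := hc 3
  have c4 := hc 4
  have c5 := hc 5
  have c6 := hc 6
  have c7 := hc 7
  simp [ell, al, be, ga] at c0 c1 c2 c3 c4 c5 c6 c7
  refine ⟨lt_of_le_of_ne h0 (Ne.symm c0), lt_of_le_of_ne h1 ?_, lt_of_le_of_ne h2 ?_,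
    lt_of_le_of_ne h3 ?_, lt_of_le_of_ne h4 ?_, lt_of_le_of_ne h5 ?_, lt_of_le_of_ne h6 ?_,
    lt_of_le_of_ne h7 ?_⟩
  · intro e; apply c1; linarith
  · intro e; apply c2; linarith
  · intro e; apply c3; linarith
  · intro e; apply c4; linarith
  · intro e; apply c5; linarith
  · intro e; apply c6; linarith
  · intro e; apply c7; linarith

lemma range_le {w : Plane} (h : In w) (j : Fin 8) (hj : ell j w = 0) :
    (lo j : ℝ) ≤ w 0 ∧ w 0 ≤ hi j := by
  obtain ⟨h0, h1, h2, h3, h4, h5, h6, h7⟩ := h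
  fin_cases j <;> simp [ell, al, be, ga] at hj <;> simp [lo, hi] <;> constructor <;> linarith

/-- the neighbour across the side `k` -/
def nb (h : Sym) (k : Fin 8) : Prop :=
  match k with
  | 0 => h.σ = -1 ∧ h.τ = -1 ∧ h.m = 2 ∧ h.n = 0
  | 1 => h.σ = -1 ∧ h.τ = 1 ∧ h.m = 5 ∧ h.n = -1
  | 2 => h.σ = 1 ∧ h.τ = 1 ∧ h.m = 2 ∧ h.n = 0
  | 3 => h.σ = 1 ∧ h.τ = -1 ∧ h.m = 3 ∧ h.n = 1
  | 4 => h.σ = -1 ∧ h.τ = 1 ∧ h.m = 5 ∧ h.n = 1
  | 5 => h.σ = -1 ∧ h.τ = -1 ∧ h.m = 4 ∧ h.n = 2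
  | 6 => h.σ = 1 ∧ h.τ = 1 ∧ h.m = -2 ∧ h.n = 0
  | 7 => h.σ = 1 ∧ h.τ = -1 ∧ h.m = -3 ∧ h.n = 1

lemma nb_unique (h h' : Sym) (k : Fin 8) (a : nb h k) (b : nb h' k) : h = h' := by
  fin_cases k <;> simp only [nb] at a b <;> obtain ⟨a1, a2, a3, a4⟩ := a <;>
    obtain ⟨b1, b2, b3, b4⟩ := b <;> ext1 <;> simp [*]

def Xf : Fin 8 → ℤ := ![2, 6, 9, 13, 14, 11, 5, 1]
def Yf : Fin 8 → ℤ := ![0, 0, 1, 3, 4, 5, 3, 1]

/-- the integer conditions -/
def Cond (h : Sym) (k j : Fin 8) : Prop :=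
  al j * ((h.σ : ℤ) * (Xf k - 4 * h.m)) + be j * ((h.τ : ℤ) * (Yf k - 4 * h.n)) + ga j = 0 ∧
  al j * ((h.σ : ℤ) * (Xf (k + 1) - 4 * h.m)) + be j * ((h.τ : ℤ) * (Yf (k + 1) - 4 * h.n)) +
    ga j = 0 ∧
  (h.σ = 1 → lo j + 4 * h.m < hi k ∧ lo k < hi j + 4 * h.m) ∧
  (h.σ = -1 → lo k < 4 * h.m - lo j ∧ 4 * h.m - hi j < hi k)

lemma main0 (h : Sym) (j : Fin 8) (hc : Cond h 0 j) : h = one ∨ nb h 0 := by
  obtain ⟨c1, c2, c3, c4⟩ := hc
  have hm := h.hm
  have hn := h.hn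
  have hone : h.σ = 1 → h.τ = 1 → h.m = 0 → h.n = 0 → h = one := by
    intro a b c d
    ext1 <;> simp [*, one]
  have e1 : (0 : Fin 8) + 1 = 1 := by decide
  rw [e1] at c2
  obtain ⟨s, t, m, n, hm0, hn0⟩ := h
  simp only at c1 c2 c3 c4 hm hn hone
  simp only [nb, lo, hi, Xf, Yf] at c1 c2 c3 c4 ⊢
  rcases units_cases s with rfl | rfl <;> rcases units_cases t with rfl | rfl <;>
    simp [Int.even_iff] at c3 c4 hm hn hone ⊢ <;> fin_cases j <;>
    simp [al, be, ga] at c1 c2 c3 c4 <;>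
    first
    | (exfalso; omega)
    | exact hone (by omega) (by omega)
    | exact Or.inl (hone (by omega) (by omega))
    | exact Or.inr ⟨by omega, by omega⟩
    | exact ⟨by omega, by omega⟩

lemma main1 (h : Sym) (j : Fin 8) (hc : Cond h 1 j) : h = one ∨ nb h 1 := by
  obtain ⟨c1, c2, c3, c4⟩ := hc
  have hm := h.hm
  have hn := h.hn
  have hone : h.σ = 1 → h.τ = 1 → h.m = 0 → h.n = 0 → h = one := by
    intro a b c d
    ext1 <;> simp [*, one]
  have e1 : (1 : Fin 8) + 1 = 2 := by decide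
  rw [e1] at c2
  obtain ⟨s, t, m, n, hm0, hn0⟩ := h
  simp only at c1 c2 c3 c4 hm hn hone
  simp only [nb, lo, hi, Xf, Yf] at c1 c2 c3 c4 ⊢
  rcases units_cases s with rfl | rfl <;> rcases units_cases t with rfl | rfl <;>
    simp [Int.even_iff] at c3 c4 hm hn hone ⊢ <;> fin_cases j <;>
    simp [al, be, ga] at c1 c2 c3 c4 <;>
    first
    | (exfalso; omega)
    | exact hone (by omega) (by omega)
    | exact Or.inl (hone (by omega) (by omega))
    | exact Or.inr ⟨by omega, by omega⟩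
    | exact ⟨by omega, by omega⟩

lemma main2 (h : Sym) (j : Fin 8) (hc : Cond h 2 j) : h = one ∨ nb h 2 := by
  obtain ⟨c1, c2, c3, c4⟩ := hc
  have hm := h.hm
  have hn := h.hn
  have hone : h.σ = 1 → h.τ = 1 → h.m = 0 → h.n = 0 → h = one := by
    intro a b c d
    ext1 <;> simp [*, one]
  have e1 : (2 : Fin 8) + 1 = 3 := by decide
  rw [e1] at c2
  obtain ⟨s, t, m, n, hm0, hn0⟩ := h
  simp only at c1 c2 c3 c4 hm hn hone
  simp only [nb, lo, hi, Xf, Yf] at c1 c2 c3 c4 ⊢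
  rcases units_cases s with rfl | rfl <;> rcases units_cases t with rfl | rfl <;>
    simp [Int.even_iff] at c3 c4 hm hn hone ⊢ <;> fin_cases j <;>
    simp [al, be, ga] at c1 c2 c3 c4 <;>
    first
    | (exfalso; omega)
    | exact hone (by omega) (by omega)
    | exact Or.inl (hone (by omega) (by omega))
    | exact Or.inr ⟨by omega, by omega⟩
    | exact ⟨by omega, by omega⟩

lemma main3 (h : Sym) (j : Fin 8) (hc : Cond h 3 j) : h = one ∨ nb h 3 := by
  obtain ⟨c1, c2, c3, c4⟩ := hc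
  have hm := h.hm
  have hn := h.hn
  have hone : h.σ = 1 → h.τ = 1 → h.m = 0 → h.n = 0 → h = one := by
    intro a b c d
    ext1 <;> simp [*, one]
  have e1 : (3 : Fin 8) + 1 = 4 := by decide
  rw [e1] at c2
  obtain ⟨s, t, m, n, hm0, hn0⟩ := h
  simp only at c1 c2 c3 c4 hm hn hone
  simp only [nb, lo, hi, Xf, Yf] at c1 c2 c3 c4 ⊢
  rcases units_cases s with rfl | rfl <;> rcases units_cases t with rfl | rfl <;>
    simp [Int.even_iff] at c3 c4 hm hn hone ⊢ <;> fin_cases j <;>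
    simp [al, be, ga] at c1 c2 c3 c4 <;>
    first
    | (exfalso; omega)
    | exact hone (by omega) (by omega)
    | exact Or.inl (hone (by omega) (by omega))
    | exact Or.inr ⟨by omega, by omega⟩
    | exact ⟨by omega, by omega⟩

lemma main4 (h : Sym) (j : Fin 8) (hc : Cond h 4 j) : h = one ∨ nb h 4 := by
  obtain ⟨c1, c2, c3, c4⟩ := hc
  have hm := h.hm
  have hn := h.hn
  have hone : h.σ = 1 → h.τ = 1 → h.m = 0 → h.n = 0 → h = one := by
    intro a b c d
    ext1 <;> simp [*, one]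
  have e1 : (4 : Fin 8) + 1 = 5 := by decide
  rw [e1] at c2
  obtain ⟨s, t, m, n, hm0, hn0⟩ := h
  simp only at c1 c2 c3 c4 hm hn hone
  simp only [nb, lo, hi, Xf, Yf] at c1 c2 c3 c4 ⊢
  rcases units_cases s with rfl | rfl <;> rcases units_cases t with rfl | rfl <;>
    simp [Int.even_iff] at c3 c4 hm hn hone ⊢ <;> fin_cases j <;>
    simp [al, be, ga] at c1 c2 c3 c4 <;>
    first
    | (exfalso; omega)
    | exact hone (by omega) (by omega)
    | exact Or.inl (hone (by omega) (by omega))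
    | exact Or.inr ⟨by omega, by omega⟩
    | exact ⟨by omega, by omega⟩

lemma main5 (h : Sym) (j : Fin 8) (hc : Cond h 5 j) : h = one ∨ nb h 5 := by
  obtain ⟨c1, c2, c3, c4⟩ := hc
  have hm := h.hm
  have hn := h.hn
  have hone : h.σ = 1 → h.τ = 1 → h.m = 0 → h.n = 0 → h = one := by
    intro a b c d
    ext1 <;> simp [*, one]
  have e1 : (5 : Fin 8) + 1 = 6 := by decide
  rw [e1] at c2
  obtain ⟨s, t, m, n, hm0, hn0⟩ := h
  simp only at c1 c2 c3 c4 hm hn hone
  simp only [nb, lo, hi, Xf, Yf] at c1 c2 c3 c4 ⊢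
  rcases units_cases s with rfl | rfl <;> rcases units_cases t with rfl | rfl <;>
    simp [Int.even_iff] at c3 c4 hm hn hone ⊢ <;> fin_cases j <;>
    simp [al, be, ga] at c1 c2 c3 c4 <;>
    first
    | (exfalso; omega)
    | exact hone (by omega) (by omega)
    | exact Or.inl (hone (by omega) (by omega))
    | exact Or.inr ⟨by omega, by omega⟩
    | exact ⟨by omega, by omega⟩

lemma main6 (h : Sym) (j : Fin 8) (hc : Cond h 6 j) : h = one ∨ nb h 6 := by
  obtain ⟨c1, c2, c3, c4⟩ := hc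
  have hm := h.hm
  have hn := h.hn
  have hone : h.σ = 1 → h.τ = 1 → h.m = 0 → h.n = 0 → h = one := by
    intro a b c d
    ext1 <;> simp [*, one]
  have e1 : (6 : Fin 8) + 1 = 7 := by decide
  rw [e1] at c2
  obtain ⟨s, t, m, n, hm0, hn0⟩ := h
  simp only at c1 c2 c3 c4 hm hn hone
  simp only [nb, lo, hi, Xf, Yf] at c1 c2 c3 c4 ⊢
  rcases units_cases s with rfl | rfl <;> rcases units_cases t with rfl | rfl <;>
    simp [Int.even_iff] at c3 c4 hm hn hone ⊢ <;> fin_cases j <;>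
    simp [al, be, ga] at c1 c2 c3 c4 <;>
    first
    | (exfalso; omega)
    | exact hone (by omega) (by omega)
    | exact Or.inl (hone (by omega) (by omega))
    | exact Or.inr ⟨by omega, by omega⟩
    | exact ⟨by omega, by omega⟩

lemma main7 (h : Sym) (j : Fin 8) (hc : Cond h 7 j) : h = one ∨ nb h 7 := by
  obtain ⟨c1, c2, c3, c4⟩ := hc
  have hm := h.hm
  have hn := h.hn
  have hone : h.σ = 1 → h.τ = 1 → h.m = 0 → h.n = 0 → h = one := by
    intro a b c d
    ext1 <;> simp [*, one]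
  have e1 : (7 : Fin 8) + 1 = 0 := by decide
  rw [e1] at c2
  obtain ⟨s, t, m, n, hm0, hn0⟩ := h
  simp only at c1 c2 c3 c4 hm hn hone
  simp only [nb, lo, hi, Xf, Yf] at c1 c2 c3 c4 ⊢
  rcases units_cases s with rfl | rfl <;> rcases units_cases t with rfl | rfl <;>
    simp [Int.even_iff] at c3 c4 hm hn hone ⊢ <;> fin_cases j <;>
    simp [al, be, ga] at c1 c2 c3 c4 <;>
    first
    | (exfalso; omega)
    | exact hone (by omega) (by omega)
    | exact Or.inl (hone (by omega) (by omega))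
    | exact Or.inr ⟨by omega, by omega⟩
    | exact ⟨by omega, by omega⟩

lemma main (h : Sym) (k j : Fin 8) (hc : Cond h k j) : h = one ∨ nb h k := by
  fin_cases k
  · exact main0 h j hc
  · exact main1 h j hc
  · exact main2 h j hc
  · exact main3 h j hc
  · exact main4 h j hc
  · exact main5 h j hc
  · exact main6 h j hc
  · exact main7 h j hc

/-- the point with parameter `p` on the side `k` -/
lemma seg_param {k : ZMod 8} {z : Plane} (h : z ∈ segment ℝ (V0 k) (V0 (k + 1))) :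
    ∃ p : ℝ, 0 ≤ p ∧ p ≤ 1 ∧ z 0 = X k + p * (X (k + 1) - X k) ∧
      z 1 = Y k + p * (Y (k + 1) - Y k) := by
  obtain ⟨u, v, hu, hv, huv, rfl⟩ := h
  refine ⟨v, hv, by linarith, ?_, ?_⟩
  · simp [V0]
    have : u = 1 - v := by linarith
    rw [this]; ring
  · simp [V0]
    have : u = 1 - v := by linarith
    rw [this]; ring

lemma XY (k : Fin 8) : X k = Xf k ∧ Y k = Yf k := ⟨rfl, rfl⟩

lemma Xf_succ : ∀ k : ZMod 8, X (k + 1) = Xf ((show Fin 8 from k) + 1) ∧
    Y (k + 1) = Yf ((show Fin 8 from k) + 1) := by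
  decide

lemma X_lo (k : Fin 8) : (lo k = Xf k ∧ hi k = Xf (k + 1)) ∨ (lo k = Xf (k + 1) ∧ hi k = Xf k) := by
  revert k; decide

lemma lo_lt (k : Fin 8) : lo k < hi k := by
  revert k; decide

lemma cond_of (h : Sym) (k j : Fin 8) (p q : ℝ) (hpq : p ≠ q) (hp0 : 0 ≤ p) (hp1 : p ≤ 1)
    (hq0 : 0 ≤ q) (hq1 : q ≤ 1) (z w : Plane)
    (z0 : z 0 = Xf k + p * (Xf (k + 1) - Xf k)) (z1 : z 1 = Yf k + p * (Yf (k + 1) - Yf k))
    (w0 : w 0 = Xf k + q * (Xf (k + 1) - Xf k)) (w1 : w 1 = Yf k + q * (Yf (k + 1) - Yf k))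
    (hz : In (app (inv h) z)) (hw : In (app (inv h) w))
    (ez : ell j (app (inv h) z) = 0) (ew : ell j (app (inv h) w) = 0) : Cond h k j := by
  have rz := range_le hz j ez
  have rw' := range_le hw j ew
  simp only [ell, app_zero, app_one, inv] at ez ew rz rw'
  rw [z0, z1] at ez
  rw [w0, w1] at ew
  rw [z0] at rz
  rw [w0] at rw'
  push_cast at ez ew rz rw'
  set A : ℝ := (al j : ℝ) * (((h.σ : ℤ) : ℝ) * (Xf k - 4 * h.m)) +
    (be j : ℝ) * (((h.τ : ℤ) : ℝ) * (Yf k - 4 * h.n)) + ga j with hA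
  set A' : ℝ := (al j : ℝ) * (((h.σ : ℤ) : ℝ) * (Xf (k + 1) - 4 * h.m)) +
    (be j : ℝ) * (((h.τ : ℤ) : ℝ) * (Yf (k + 1) - 4 * h.n)) + ga j with hA'
  have e1 : A + p * (A' - A) = 0 := by
    rw [← ez, hA, hA']; ring
  have e2 : A + q * (A' - A) = 0 := by
    rw [← ew, hA, hA']; ring
  have e3 : (p - q) * (A' - A) = 0 := by linarith
  have e4 : A' - A = 0 := by
    rcases mul_eq_zero.mp e3 with h1 | h1
    · exact absurd (sub_eq_zero.mp h1) hpq
    · exact h1
  have e5 : A = 0 := by rw [e4] at e1; linarith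
  have e6 : A' = 0 := by linarith
  have hD : (Xf (k + 1) : ℝ) - Xf k ≠ 0 := by
    have h1 := lo_lt k
    rcases X_lo k with h2 | h2
    · rw [← h2.1, ← h2.2, sub_ne_zero]
      exact_mod_cast h1.ne'
    · rw [← h2.1, ← h2.2, sub_ne_zero]
      exact_mod_cast h1.ne
  have hxne : (Xf k : ℝ) + p * (Xf (k + 1) - Xf k) ≠ (Xf k : ℝ) + q * (Xf (k + 1) - Xf k) := by
    intro he
    have h1 : (p - q) * ((Xf (k + 1) : ℝ) - Xf k) = 0 := by linarith
    rcases mul_eq_zero.mp h1 with h2 | h2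
    · exact hpq (sub_eq_zero.mp h2)
    · exact hD h2
  have hbd : ∀ p : ℝ, 0 ≤ p → p ≤ 1 → (lo k : ℝ) ≤ (Xf k : ℝ) + p * (Xf (k + 1) - Xf k) ∧
      (Xf k : ℝ) + p * (Xf (k + 1) - Xf k) ≤ hi k := by
    intro p h0 h1
    have h3 : (lo k : ℝ) < hi k := by exact_mod_cast lo_lt k
    rcases X_lo k with h2 | h2
    · rw [← h2.1, ← h2.2]
      constructor <;> nlinarith
    · rw [← h2.1, ← h2.2]
      constructor <;> nlinarith
  have bz := hbd p hp0 hp1
  have bw := hbd q hq0 hq1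
  set u : ℝ := (Xf k : ℝ) + p * (Xf (k + 1) - Xf k) with hu
  set v : ℝ := (Xf k : ℝ) + q * (Xf (k + 1) - Xf k) with hv
  refine ⟨?_, ?_, ?_, ?_⟩
  · rw [hA] at e5
    exact_mod_cast e5
  · rw [hA'] at e6
    exact_mod_cast e6
  · intro hs
    rw [hs] at rz rw'
    push_cast at rz rw'
    constructor
    · by_contra hc
      push Not at hc
      have hc' : (hi k : ℝ) ≤ lo j + 4 * h.m := by exact_mod_cast hc
      apply hxne
      linarith
    · by_contra hc
      push Not at hc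
      have hc' : (hi j : ℝ) + 4 * h.m ≤ lo k := by exact_mod_cast hc
      apply hxne
      linarith
  · intro hs
    rw [hs] at rz rw'
    push_cast at rz rw'
    constructor
    · by_contra hc
      push Not at hc
      have hc' : 4 * (h.m : ℝ) - lo j ≤ lo k := by exact_mod_cast hc
      apply hxne
      linarith
    · by_contra hc
      push Not at hc
      have hc' : (hi k : ℝ) ≤ 4 * h.m - hi j := by exact_mod_cast hc
      apply hxne
      linarith

/-- the job: edge disjointness -/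
theorem t6 : PStm6 := by
  intro k a b hab hsub
  have hgoal : {h : Sym | ∀ z ∈ segment ℝ a b, In (app (inv h) z) ∧ ¬ SIn (app (inv h) z)} ⊆
      {h | h = one} ∪ {h | nb h (show Fin 8 from k)} := by
    intro h hh
    -- nine points
    let P : Fin 9 → Plane := fun t => a + ((t : ℕ) / 8 : ℝ) • (b - a)
    have hP : ∀ t, P t ∈ segment ℝ a b := by
      intro t
      rw [segment_eq_image']
      refine ⟨((t : ℕ) / 8 : ℝ), ⟨by positivity, ?_⟩, rfl⟩
      rw [div_le_one (by norm_num)]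
      have := t.is_lt
      have h9 : (t : ℕ) ≤ 8 := by omega
      exact_mod_cast h9
    have hj : ∀ t, ∃ j : Fin 8, ell j (app (inv h) (P t)) = 0 := fun t =>
      exists_eq (hh _ (hP t)).1 (hh _ (hP t)).2
    choose J hJ using hj
    obtain ⟨s, t, hst, hJst⟩ := Fintype.exists_ne_map_eq_of_card_lt J (by simp)
    have hne : P s ≠ P t := by
      intro he
      have h1 : ((s : ℕ) / 8 : ℝ) • (b - a) = ((t : ℕ) / 8 : ℝ) • (b - a) := by
        simpa [P] using he
      have h2 : (((s : ℕ) / 8 : ℝ) - ((t : ℕ) / 8 : ℝ)) • (b - a) = 0 := by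
        rw [sub_smul, h1, sub_self]
      rcases smul_eq_zero.mp h2 with h3 | h3
      · apply hst
        apply Fin.ext
        have h4 : ((s : ℕ) : ℝ) = ((t : ℕ) : ℝ) := by linarith
        exact_mod_cast h4
      · exact hab (sub_eq_zero.mp h3).symm
    obtain ⟨p, hp0, hp1, z0, z1⟩ := seg_param (hsub (hP s))
    obtain ⟨q, hq0, hq1, w0, w1⟩ := seg_param (hsub (hP t))
    have hpq : p ≠ q := by
      rintro rfl
      exact hne (ext' (z0.trans w0.symm) (z1.trans w1.symm))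
    let k' : Fin 8 := k
    have ek : X k = Xf k' ∧ Y k = Yf k' := XY k'
    have ek1 : X (k + 1) = Xf (k' + 1) ∧ Y (k + 1) = Yf (k' + 1) := Xf_succ k'
    rw [ek.1, ek1.1] at z0 w0
    rw [ek.2, ek1.2] at z1 w1
    exact main h k' (J s) (cond_of h k' (J s) p q hpq hp0 hp1 hq0 hq1 (P s) (P t) z0 z1 w0 w1
      (hh _ (hP s)).1 (hh _ (hP t)).1 (hJ s) (by rw [hJst]; exact hJ t))
  refine (Set.encard_le_encard hgoal).trans ((Set.encard_union_le _ _).trans ?_)
  have h1 : ({h : Sym | h = one}).encard ≤ 1 := by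
    rw [Set.encard_le_one_iff]
    intro a b ha hb
    exact ha.trans hb.symm
  have h2 : ({h : Sym | nb h (show Fin 8 from k)}).encard ≤ 1 := by
    rw [Set.encard_le_one_iff]
    intro a b ha hb
    exact nb_unique a b _ ha hb
  calc _ ≤ (1 : ℕ∞) + 1 := add_le_add h1 h2
    _ = 2 := by norm_num

end Q139.DT.J6

namespace Q139.DT

/-- the job DT-6 -/
theorem t6 : PStm6 := J6.t6

end Q139.DT
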