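import Pool.Agent.Q139.DT.J5

namespace Q139.DT

/-- integer points -/
def ptz (a b : ℤ) : Plane := pt (a : ℝ) (b : ℝ)

lemma app_ptz (g : Sym) (a b : ℤ) :
    app g (ptz a b) = ptz (g.σ * a + 4 * g.m) (g.τ * b + 4 * g.n) := by
  apply ext'
  · simp [ptz]
  · simp [ptz]

/-- the circuit property at a point -/
def Circ (V : Plane) : Prop := ∃ m, 3 ≤ m ∧ ∃ (c : ZMod m → Sym) (e : ZMod m → Set Plane),
    Function.Injective c ∧ Function.Injective e ∧
    Set.range c = {h | In (app (inv h) V) ∧ ¬ SIn (app (inv h) V)} ∧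
    ∀ t, V ∈ e t ∧ e t ∈ Set.range (T (c t)).edge ∧ e t ∈ Set.range (T (c (t + 1))).edge

lemma circ_move (i : Sym) (V : Plane) (h : Circ V) : Circ (app i V) := by
  obtain ⟨m, hm, c, e, hc, he, hr, hs⟩ := h
  have happ : Function.Injective (app i) := (iso i).injective
  refine ⟨m, hm, fun t => mul i (c t), fun t => app i '' e t, ?_, ?_, ?_, ?_⟩
  · intro s t hst
    apply hc
    have h1 := congrArg (mul (inv i)) hst
    simpa only [inv_mul_cancel_left'] using h1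
  · intro s t hst
    exact he (happ.image_injective hst)
  · ext j
    constructor
    · rintro ⟨t, rfl⟩
      have h1 : c t ∈ Set.range c := ⟨t, rfl⟩
      rw [hr] at h1
      change In (app (inv (mul i (c t))) (app i V)) ∧ ¬ SIn (app (inv (mul i (c t))) (app i V))
      rw [← inv_mul_app, inv_mul_cancel_left']
      exact h1
    · intro hj
      rw [Set.mem_ofPred_eq, ← inv_mul_app] at hj
      have h1 : mul (inv i) j ∈ Set.range c := by
        rw [hr]
        exact hj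
      obtain ⟨t, ht⟩ := h1
      refine ⟨t, ?_⟩
      change mul i (c t) = j
      rw [ht, mul_inv_cancel_left']
  · intro t
    obtain ⟨h1, ⟨l, h2⟩, ⟨l', h3⟩⟩ := hs t
    exact ⟨⟨_, h1, rfl⟩, ⟨l, (edge_mul i (c t) l).trans (congrArg (fun S => app i '' S) h2)⟩,
      ⟨l', (edge_mul i (c (t + 1)) l').trans (congrArg (fun S => app i '' S) h3)⟩⟩

lemma det_of_seg {V Q Q' : Plane} (h : segment ℝ V Q = segment ℝ V Q') : det V Q Q' = 0 := by
  have h1 : Q ∈ segment ℝ V Q' := by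
    rw [← h]
    exact right_mem_segment ℝ V Q
  obtain ⟨a, b, ha, hb, hab, rfl⟩ := h1
  have e0 : (a • V + b • Q') 0 = a * V 0 + b * Q' 0 := rfl
  have e1 : (a • V + b • Q') 1 = a * V 1 + b * Q' 1 := rfl
  simp only [det]
  rw [e0, e1]
  have ha' : a = 1 - b := by linarith
  rw [ha']
  ring

lemma det_ptz (a b c d e f : ℤ) : det (ptz a b) (ptz c d) (ptz e f) =
    (((c - a) * (f - b) - (d - b) * (e - a) : ℤ) : ℝ) := by
  simp [det, ptz]

lemma edge_eq (g : Sym) (l : ZMod 8) (a b c d : ℤ) (h1 : (g.σ * X l + 4 * g.m : ℤ) = a)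
    (h2 : (g.τ * Y l + 4 * g.n : ℤ) = b) (h3 : (g.σ * X (l + 1) + 4 * g.m : ℤ) = c)
    (h4 : (g.τ * Y (l + 1) + 4 * g.n : ℤ) = d) :
    (T g).edge l = segment ℝ (ptz a b) (ptz c d) := by
  change segment ℝ (app g (ptz (X l) (Y l))) (app g (ptz (X (l + 1)) (Y (l + 1)))) = _
  rw [app_ptz, app_ptz, h1, h2, h3, h4]

lemma edge_eq' (g : Sym) (l : ZMod 8) (a b c d : ℤ) (h1 : (g.σ * X l + 4 * g.m : ℤ) = c)
    (h2 : (g.τ * Y l + 4 * g.n : ℤ) = d) (h3 : (g.σ * X (l + 1) + 4 * g.m : ℤ) = a)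
    (h4 : (g.τ * Y (l + 1) + 4 * g.n : ℤ) = b) :
    (T g).edge l = segment ℝ (ptz a b) (ptz c d) := by
  rw [edge_eq g l c d a b h1 h2 h3 h4, segment_symm]

/-- integer version of `In` and not `SIn` -/
def BZ (u w : ℤ) : Prop :=
  (0 ≤ w ∧ u ≤ 3 * w + 6 ∧ u ≤ 2 * w + 7 ∧ u ≤ w + 10 ∧ u ≤ 26 - 3 * w ∧
    3 * w - 4 ≤ u ∧ 2 * w - 1 ≤ u ∧ 2 - w ≤ u) ∧
  (w = 0 ∨ u = 3 * w + 6 ∨ u = 2 * w + 7 ∨ u = w + 10 ∨ u = 26 - 3 * w ∨
    3 * w - 4 = u ∨ 2 * w - 1 = u ∨ 2 - w = u)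

lemma bd_iff (g : Sym) (a b : ℤ) (u w : ℤ) (hu : u = g.σ * (a - 4 * g.m))
    (hw : w = g.τ * (b - 4 * g.n)) :
    (In (app (inv g) (ptz a b)) ∧ ¬ SIn (app (inv g) (ptz a b))) ↔ BZ u w := by
  have hu' : cu g (ptz a b) = (u : ℝ) := by
    rw [hu]
    simp [cu, ptz]
  have hw' : cw g (ptz a b) = (w : ℝ) := by
    rw [hw]
    simp [cw, ptz]
  rw [In_iff g _ _ _ hu' hw', SIn_iff g _ _ _ hu' hw']
  have hI : (0 ≤ (w : ℝ) ∧ (u : ℝ) ≤ 3 * w + 6 ∧ (u : ℝ) ≤ 2 * w + 7 ∧ (u : ℝ) ≤ w + 10 ∧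
      (u : ℝ) ≤ 26 - 3 * w ∧ 3 * (w : ℝ) - 4 ≤ u ∧ 2 * (w : ℝ) - 1 ≤ u ∧ 2 - (w : ℝ) ≤ u) ↔
      (0 ≤ w ∧ u ≤ 3 * w + 6 ∧ u ≤ 2 * w + 7 ∧ u ≤ w + 10 ∧ u ≤ 26 - 3 * w ∧
    3 * w - 4 ≤ u ∧ 2 * w - 1 ≤ u ∧ 2 - w ≤ u) := by
    norm_cast
  have hS : (0 < (w : ℝ) ∧ (u : ℝ) < 3 * w + 6 ∧ (u : ℝ) < 2 * w + 7 ∧ (u : ℝ) < w + 10 ∧
      (u : ℝ) < 26 - 3 * w ∧ 3 * (w : ℝ) - 4 < u ∧ 2 * (w : ℝ) - 1 < u ∧ 2 - (w : ℝ) < u) ↔
      (0 < w ∧ u < 3 * w + 6 ∧ u < 2 * w + 7 ∧ u < w + 10 ∧ u < 26 - 3 * w ∧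
    3 * w - 4 < u ∧ 2 * w - 1 < u ∧ 2 - w < u) := by
    norm_cast
  rw [hI, hS]
  unfold BZ
  omega

/-- the tiles at the first corner -/
def cA : ZMod 3 → Sym := (![⟨1, 1, 0, 0, by decide, by decide⟩, ⟨-1, -1, 2, 0, by decide, by decide⟩,
  ⟨1, -1, -3, 1, by decide, by decide⟩] : Fin 3 → Sym)

/-- the tiles at the last corner -/
def cB : ZMod 5 → Sym := (![⟨1, 1, 0, 0, by decide, by decide⟩, ⟨1, -1, -3, 1, by decide, by decide⟩,
  ⟨1, -1, -1, 1, by decide, by decide⟩, ⟨-1, 1, 3, -1, by decide, by decide⟩,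
  ⟨1, 1, -2, 0, by decide, by decide⟩] : Fin 5 → Sym)

/-- the other ends of the edges at the first corner -/
def QA : ZMod 3 → ℤ × ℤ := (![(6, 0), (-1, -1), (1, 1)] : Fin 3 → ℤ × ℤ)

/-- the other ends of the edges at the last corner -/
def QB : ZMod 5 → ℤ × ℤ := (![(2, 0), (-3, 3), (7, -1), (-2, 0), (5, 3)] : Fin 5 → ℤ × ℤ)

lemma circA : Circ (ptz 2 0) := by
  refine ⟨3, by norm_num, cA, fun t => segment ℝ (ptz 2 0) (ptz (QA t).1 (QA t).2), ?_, ?_, ?_, ?_⟩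
  · intro s t hst
    have h1 := congrArg Sym.m hst
    clear hst
    revert h1
    revert s t
    decide
  · intro s t hst
    have h1 := det_of_seg hst
    rw [det_ptz] at h1
    have h2 : ((QA s).1 - 2) * ((QA t).2 - 0) - ((QA s).2 - 0) * ((QA t).1 - 2) = 0 := by
      exact_mod_cast h1
    revert h2
    clear h1 hst
    revert s t
    decide
  · ext ⟨s, t, m, n, hm, hn⟩
    rw [Set.mem_ofPred_eq, bd_iff _ 2 0 _ _ rfl rfl]
    constructor
    · rintro ⟨k, hk⟩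
      have hk' : k = 0 ∨ k = 1 ∨ k = 2 := by
        clear hk
        revert k
        decide
      rcases hk' with rfl | rfl | rfl
      all_goals
        rw [← hk]
        simp only [BZ]
        decide
    · intro h
      simp only [BZ] at h
      rcases units_cases s with rfl | rfl <;> rcases units_cases t with rfl | rfl
      · obtain ⟨a, rfl⟩ : Even m := hm.2 rfl
        obtain ⟨b, rfl⟩ : Even n := hn.2 rfl
        simp only [Units.val_one, Units.val_neg, one_mul] at h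
        have e1 : a = 0 ∧ b = 0 := by omega
        obtain ⟨rfl, rfl⟩ := e1
        exact ⟨0, rfl⟩
      · have hst : ¬ ((1 : ℤˣ) = -1) := by decide
        obtain ⟨a, rfl⟩ : Odd m := Int.not_even_iff_odd.1 fun h' => hst (hm.1 h')
        obtain ⟨b, rfl⟩ : Odd n := Int.not_even_iff_odd.1 fun h' => hst (hn.1 h')
        simp only [Units.val_one, Units.val_neg, one_mul] at h
        have e1 : a = -2 ∧ b = 0 := by omega
        obtain ⟨rfl, rfl⟩ := e1
        exact ⟨2, rfl⟩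
      · have hst : ¬ ((-1 : ℤˣ) = 1) := by decide
        obtain ⟨a, rfl⟩ : Odd m := Int.not_even_iff_odd.1 fun h' => hst (hm.1 h')
        obtain ⟨b, rfl⟩ : Odd n := Int.not_even_iff_odd.1 fun h' => hst (hn.1 h')
        simp only [Units.val_one, Units.val_neg, one_mul] at h
        omega
      · obtain ⟨a, rfl⟩ : Even m := hm.2 rfl
        obtain ⟨b, rfl⟩ : Even n := hn.2 rfl
        simp only [Units.val_one, Units.val_neg, one_mul] at h
        have e1 : a = 1 ∧ b = 0 := by omega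
        obtain ⟨rfl, rfl⟩ := e1
        exact ⟨1, rfl⟩
  · intro t
    have ht : t = 0 ∨ t = 1 ∨ t = 2 := by
      revert t
      decide
    refine ⟨left_mem_segment ℝ _ _, ?_, ?_⟩
    · rcases ht with rfl | rfl | rfl
      · exact ⟨(0 : ZMod 8), edge_eq _ _ _ _ _ _ (by decide) (by decide) (by decide) (by decide)⟩
      · exact ⟨(1 : ZMod 8), edge_eq _ _ _ _ _ _ (by decide) (by decide) (by decide) (by decide)⟩
      · exact ⟨(3 : ZMod 8), edge_eq' _ _ _ _ _ _ (by decide) (by decide) (by decide) (by decide)⟩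
    · rcases ht with rfl | rfl | rfl
      · exact ⟨(0 : ZMod 8), edge_eq' _ _ _ _ _ _ (by decide) (by decide) (by decide) (by decide)⟩
      · exact ⟨(4 : ZMod 8), edge_eq _ _ _ _ _ _ (by decide) (by decide) (by decide) (by decide)⟩
      · exact ⟨(7 : ZMod 8), edge_eq' _ _ _ _ _ _ (by decide) (by decide) (by decide) (by decide)⟩

lemma circB : Circ (ptz 1 1) := by
  refine ⟨5, by norm_num, cB, fun t => segment ℝ (ptz 1 1) (ptz (QB t).1 (QB t).2), ?_, ?_, ?_, ?_⟩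
  · intro s t hst
    have h1 := congrArg Sym.m hst
    clear hst
    revert h1
    revert s t
    decide
  · intro s t hst
    have h1 := det_of_seg hst
    rw [det_ptz] at h1
    have h2 : ((QB s).1 - 1) * ((QB t).2 - 1) - ((QB s).2 - 1) * ((QB t).1 - 1) = 0 := by
      exact_mod_cast h1
    revert h2
    clear h1 hst
    revert s t
    decide
  · ext ⟨s, t, m, n, hm, hn⟩
    rw [Set.mem_ofPred_eq, bd_iff _ 1 1 _ _ rfl rfl]
    constructor
    · rintro ⟨k, hk⟩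
      have hk' : k = 0 ∨ k = 1 ∨ k = 2 ∨ k = 3 ∨ k = 4 := by
        clear hk
        revert k
        decide
      rcases hk' with rfl | rfl | rfl | rfl | rfl
      all_goals
        rw [← hk]
        simp only [BZ]
        decide
    · intro h
      simp only [BZ] at h
      rcases units_cases s with rfl | rfl <;> rcases units_cases t with rfl | rfl
      · obtain ⟨a, rfl⟩ : Even m := hm.2 rfl
        obtain ⟨b, rfl⟩ : Even n := hn.2 rfl
        simp only [Units.val_one, Units.val_neg, one_mul] at h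
        have e1 : (a = 0 ∧ b = 0) ∨ (a = -1 ∧ b = 0) := by omega
        rcases e1 with ⟨rfl, rfl⟩ | ⟨rfl, rfl⟩
        · exact ⟨0, rfl⟩
        · exact ⟨4, rfl⟩
      · have hst : ¬ ((1 : ℤˣ) = -1) := by decide
        obtain ⟨a, rfl⟩ : Odd m := Int.not_even_iff_odd.1 fun h' => hst (hm.1 h')
        obtain ⟨b, rfl⟩ : Odd n := Int.not_even_iff_odd.1 fun h' => hst (hn.1 h')
        simp only [Units.val_one, Units.val_neg, one_mul] at h
        have e1 : (a = -2 ∧ b = 0) ∨ (a = -1 ∧ b = 0) := by omega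
        rcases e1 with ⟨rfl, rfl⟩ | ⟨rfl, rfl⟩
        · exact ⟨1, rfl⟩
        · exact ⟨2, rfl⟩
      · have hst : ¬ ((-1 : ℤˣ) = 1) := by decide
        obtain ⟨a, rfl⟩ : Odd m := Int.not_even_iff_odd.1 fun h' => hst (hm.1 h')
        obtain ⟨b, rfl⟩ : Odd n := Int.not_even_iff_odd.1 fun h' => hst (hn.1 h')
        simp only [Units.val_one, Units.val_neg, one_mul] at h
        have e1 : a = 1 ∧ b = -1 := by omega
        obtain ⟨rfl, rfl⟩ := e1
        exact ⟨3, rfl⟩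
      · obtain ⟨a, rfl⟩ : Even m := hm.2 rfl
        obtain ⟨b, rfl⟩ : Even n := hn.2 rfl
        simp only [Units.val_one, Units.val_neg, one_mul] at h
        omega
  · intro t
    have ht : t = 0 ∨ t = 1 ∨ t = 2 ∨ t = 3 ∨ t = 4 := by
      revert t
      decide
    refine ⟨left_mem_segment ℝ _ _, ?_, ?_⟩
    · rcases ht with rfl | rfl | rfl | rfl | rfl
      · exact ⟨(7 : ZMod 8), edge_eq _ _ _ _ _ _ (by decide) (by decide) (by decide) (by decide)⟩
      · exact ⟨(2 : ZMod 8), edge_eq' _ _ _ _ _ _ (by decide) (by decide) (by decide) (by decide)⟩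
      · exact ⟨(5 : ZMod 8), edge_eq' _ _ _ _ _ _ (by decide) (by decide) (by decide) (by decide)⟩
      · exact ⟨(4 : ZMod 8), edge_eq' _ _ _ _ _ _ (by decide) (by decide) (by decide) (by decide)⟩
      · exact ⟨(2 : ZMod 8), edge_eq _ _ _ _ _ _ (by decide) (by decide) (by decide) (by decide)⟩
    · rcases ht with rfl | rfl | rfl | rfl | rfl
      · exact ⟨(3 : ZMod 8), edge_eq _ _ _ _ _ _ (by decide) (by decide) (by decide) (by decide)⟩
      · exact ⟨(6 : ZMod 8), edge_eq _ _ _ _ _ _ (by decide) (by decide) (by decide) (by decide)⟩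
      · exact ⟨(5 : ZMod 8), edge_eq _ _ _ _ _ _ (by decide) (by decide) (by decide) (by decide)⟩
      · exact ⟨(1 : ZMod 8), edge_eq' _ _ _ _ _ _ (by decide) (by decide) (by decide) (by decide)⟩
      · exact ⟨(6 : ZMod 8), edge_eq' _ _ _ _ _ _ (by decide) (by decide) (by decide) (by decide)⟩

theorem t7 : PStm7 := by
  intro k
  have hk : k = 0 ∨ k = 1 ∨ k = 2 ∨ k = 3 ∨ k = 4 ∨ k = 5 ∨ k = 6 ∨ k = 7 := by
    revert k
    decide
  have hA := circA
  have hB := circB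
  have mv : ∀ (g : Sym) (a b c d : ℤ), Circ (ptz a b) → (g.σ * a + 4 * g.m : ℤ) = c →
      (g.τ * b + 4 * g.n : ℤ) = d → Circ (ptz c d) := by
    intro g a b c d h h1 h2
    have := circ_move g _ h
    rwa [app_ptz, h1, h2] at this
  rcases hk with rfl | rfl | rfl | rfl | rfl | rfl | rfl | rfl
  · exact hA
  · exact mv ⟨-1, -1, 2, 0, by decide, by decide⟩ 2 0 (X 1) (Y 1) hA (by decide) (by decide)
  · exact mv ⟨1, 1, 2, 0, by decide, by decide⟩ 1 1 (X 2) (Y 2) hB (by decide) (by decide)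
  · exact mv ⟨1, -1, 3, 1, by decide, by decide⟩ 1 1 (X 3) (Y 3) hB (by decide) (by decide)
  · exact mv ⟨1, -1, 3, 1, by decide, by decide⟩ 2 0 (X 4) (Y 4) hA (by decide) (by decide)
  · exact mv ⟨-1, 1, 3, 1, by decide, by decide⟩ 1 1 (X 5) (Y 5) hB (by decide) (by decide)
  · exact mv ⟨1, -1, 1, 1, by decide, by decide⟩ 1 1 (X 6) (Y 6) hB (by decide) (by decide)
  · exact hB

end Q139.DT
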