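import Pool.Agent.Q139.DT.J2

namespace Q139.DT

/-- left multiplication as a permutation -/
def lperm (g : Sym) : Equiv.Perm Sym where
  toFun := mul g
  invFun := mul (inv g)
  left_inv := inv_mul_cancel_left' g
  right_inv := mul_inv_cancel_left' g

lemma region_mul (g k : Sym) : iso g '' (T k).region = (T (mul g k)).region := by
  rw [region_T, region_T, ← Set.image_comp]
  apply Set.image_congr
  intro z _
  exact (app_mul g k z).symm

lemma div_mul (i j : Sym) : mul (mul j (inv i)) i = j := by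
  ext1 <;> rcases units_cases i.σ with hs | hs <;> rcases units_cases i.τ with ht | ht <;>
    simp [mul, inv, hs, ht]

theorem t8 : PStm8 := by
  intro i j
  refine ⟨iso (mul j (inv i)), lperm (mul j (inv i)), fun k => region_mul _ k, div_mul i j⟩

lemma units_int (u : ℤˣ) : (u : ℤ) = 1 ∨ (u : ℤ) = -1 := by
  rcases units_cases u with rfl | rfl <;> simp

theorem t9 : PStm9 := by
  intro x y h hy
  rintro ⟨⟨a1, a2, a3, a4, a5, a6, a7, a8⟩, hn⟩
  obtain ⟨s, hs⟩ : ∃ s : ℤ, s = ((inv h).σ : ℤ) := ⟨_, rfl⟩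
  obtain ⟨t, ht⟩ : ∃ t : ℤ, t = ((inv h).τ : ℤ) := ⟨_, rfl⟩
  have hs1 : s = 1 ∨ s = -1 := by rw [hs]; exact units_int _
  have ht1 : t = 1 ∨ t = -1 := by rw [ht]; exact units_int _
  obtain ⟨m, hm⟩ : ∃ m : ℤ, m = (inv h).m := ⟨_, rfl⟩
  obtain ⟨n, hn'⟩ : ∃ n : ℤ, n = (inv h).n := ⟨_, rfl⟩
  have e0 : app (inv h) (qp x y) 0 = (s : ℝ) * x + 4 * m := by
    rw [app_zero, ← hs, ← hm]
    rfl
  have e1 : app (inv h) (qp x y) 1 = (t : ℝ) * (y / 4) + 4 * n := by
    rw [app_one, ← ht, ← hn']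
    rfl
  obtain ⟨k, rfl⟩ := hy
  apply hn
  simp only [SIn]
  simp only [e0, e1] at a1 a2 a3 a4 a5 a6 a7 a8 ⊢
  have key : ∀ A B C : ℤ, (B = 1 ∨ B = -1 ∨ B = 2 ∨ B = -2 ∨ B = 3 ∨ B = -3) →
      ((t : ℝ) * (((2 * k + 1 : ℤ) : ℝ) / 4) + 4 * n) * B + ((s : ℝ) * x + 4 * m) * A + C ≠ 0 := by
    intro A B C hB hE
    have h2 : ((t * (2 * k + 1) * B + 16 * n * B + (s * x + 4 * m) * A * 4 + 4 * C : ℤ) : ℝ) = 0 := by
      push_cast at hE ⊢
      linarith
    have h3 : t * (2 * k + 1) * B + 16 * n * B + (s * x + 4 * m) * A * 4 + 4 * C = 0 := by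
      exact_mod_cast h2
    obtain ⟨w, hw⟩ : ∃ w, w = (s * x + 4 * m) * A := ⟨_, rfl⟩
    rw [← hw] at h3
    rcases ht1 with h | h <;> rw [h] at h3 <;>
      rcases hB with h' | h' | h' | h' | h' | h' <;> rw [h'] at h3 <;> omega
  refine ⟨lt_of_le_of_ne a1 ?_, lt_of_le_of_ne a2 ?_, lt_of_le_of_ne a3 ?_, lt_of_le_of_ne a4 ?_,
    lt_of_le_of_ne a5 ?_, lt_of_le_of_ne a6 ?_, lt_of_le_of_ne a7 ?_, lt_of_le_of_ne a8 ?_⟩
  · intro hE
    apply key 0 1 0 (by norm_num)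
    push_cast at hE ⊢
    linarith
  · intro hE
    apply key (-1) 3 6 (by norm_num)
    push_cast at hE ⊢
    linarith
  · intro hE
    apply key (-1) 2 7 (by norm_num)
    push_cast at hE ⊢
    linarith
  · intro hE
    apply key (-1) 1 10 (by norm_num)
    push_cast at hE ⊢
    linarith
  · intro hE
    apply key (-1) (-3) 26 (by norm_num)
    push_cast at hE ⊢
    linarith
  · intro hE
    apply key (-1) 3 (-4) (by norm_num)
    push_cast at hE ⊢
    linarith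
  · intro hE
    apply key (-1) 2 (-1) (by norm_num)
    push_cast at hE ⊢
    linarith
  · intro hE
    apply key (-1) (-1) 2 (by norm_num)
    push_cast at hE ⊢
    linarith

end Q139.DT
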