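import Pool.Agent.Q139.DT.Grp

/-!
Statements (project DT, MP_548d6e_co): a convex octagon whose images under a pgg group form an
irreducible isohedral, edge- and vertex-disjoint multiple tiling of density two.

`PStm n` are the statements, `assembly` shows that they give the result.
-/

namespace Q139.DT

/-- (1) The octagon is given by its eight inequalities.
Proof. `⊆`: `convexHull_min`, `In` is convex (linear inequalities), the corners satisfy it.
`⊇`: fan triangulation from the corner `V0 0 = (2,0)`: let `D k = det (V0 0) (V0 k) z`; then `D 1 ≥ 0`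
(it is `4 z 1`) and `D 7 ≤ 0` (it is `2 - z 0 - z 1`), so there is `k ∈ {1..6}` with `D k ≥ 0`,
`D (k+1) ≤ 0`, and `z` has nonnegative barycentric coordinates in the triangle `V0 0, V0 k, V0 (k+1)`. -/
def PStm1 : Prop := ∀ z : Plane, z ∈ R0 ↔ In z

/-- (2) Interior of the octagon. -/
def PStm2 : Prop := ∀ z : Plane, z ∈ interior R0 ↔ SIn z

/-- (3) Frontier of the octagon (closed, so frontier = set minus interior). -/
def PStm3 : Prop := ∀ z : Plane, z ∈ frontier R0 ↔ In z ∧ ¬ SIn z

/-- (4) Local finiteness.
Proof. If `w = app g z` with `In z` (so `0 ≤ z 1 ≤ 5`, `1 ≤ z 0 ≤ 14`) and `‖w‖ ≤ R`, then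
`|4 m| ≤ R + 14`, `|4 n| ≤ R + 5`; a `Sym` is determined by `σ, τ, m, n`, and `ℤˣ` is finite. -/
def PStm4 : Prop := ∀ K : Set Plane, Bornology.IsBounded K →
  {g | ((T g).region ∩ K).Nonempty}.Finite

/-- (5) Density two. -/
def PStm5 : Prop := ∀ x : Plane, (∀ g, x ∉ frontier (T g).region) →
  {g | x ∈ interior (T g).region}.ncard = 2

/-- (6) Edge-disjointness (with the explicit inequalities in place of the sets; the hypotheses say
that the points of the segment `a b` lie on the side `k` of `T 1` respectively on the frontier of `T h`).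
Proof. See the docstring of `PStm6`: let `a b ⊆ segment (V0 k) (V0 (k+1))`, `a ≠ b`. Suppose all points
`z` of `segment a b` satisfy `In (app (inv h) z)` and `¬ SIn (app (inv h) z)`. For nine distinct points
of the segment two satisfy the same one of the eight equations `ℓ_j (app (inv h) z) = 0`
(pigeonhole), hence `ℓ_j ∘ app (inv h)` vanishes at `V0 k` and at `V0 (k+1)` (affine function on a
line): two integer equations for `h.m, h.n`; and the midpoint of those two points lies strictly
inside both `x`-ranges (no side is vertical), which gives two integer inequalities. For each `j, k, σ, τ`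
`omega` (with the parities `h.hm`, `h.hn`) leaves only `h = 1` and, for exactly one `j`,
`h = nb k`, where `nb k` is the neighbour across the side `k`. So at most two `h`. -/
def PStm6 : Prop := ∀ (k : ZMod 8) (a b : Plane), a ≠ b →
  segment ℝ a b ⊆ segment ℝ (V0 k) (V0 (k + 1)) →
  {h : Sym | ∀ z ∈ segment ℝ a b, In (app (inv h) z) ∧ ¬ SIn (app (inv h) z)}.encard ≤ 2

/-- (7) The circuits around the corners of the base tile.
Proof. Orbit A: `V0 0, V0 1, V0 4` (three tiles around), orbit B: `V0 2, V0 3, V0 5, V0 6, V0 7` (five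
tiles, going around twice). For `V = V0 k` the tiles are the `g` with `app g (V0 l) = V0 k`, one for each
`l` in the same orbit. In orbit A the cyclic order of the corners is `0, 1, 4` with shared sides
(side `l` is `V0 l, V0 (l+1)`, sides of tiles with corner in this order) `0~0`, `1~4`, `3~7`; in orbit B
it is `7, 3, 6, 5, 2` with shared sides `7~3`, `2~6`, `5~5`, `4~1`, `2~6`. -/
def PStm7 : Prop := ∀ k : ZMod 8, ∃ m, 3 ≤ m ∧ ∃ (c : ZMod m → Sym) (e : ZMod m → Set Plane),
    Function.Injective c ∧ Function.Injective e ∧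
    Set.range c = {h | In (app (inv h) (V0 k)) ∧ ¬ SIn (app (inv h) (V0 k))} ∧
    ∀ t, V0 k ∈ e t ∧ e t ∈ Set.range (T (c t)).edge ∧ e t ∈ Set.range (T (c (t + 1))).edge

/-- (8) Isohedral. -/
def PStm8 : Prop := Isohedral T

/-- the point `(x, y / 4)` -/
noncomputable def qp (x y : ℤ) : Plane := pt x ((y : ℝ) / 4)

/-- (9) Points `(x, y/4)` with integer `x` and odd `y` lie on no frontier.
Proof. If `w = app (inv h) (qp x y)` satisfies `In w ∧ ¬ SIn w` then one of the eight inequalities of
`In` is an equality at `w = (σ (x - 4 m), τ (y/4 - 4 n))`, i.e. `w 0 = c · (w 1) + d` with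
`c ∈ {±1, ±2, ±3}` or `w 1 = 0`; multiplied by four this is impossible modulo four because `y` is odd. -/
def PStm9 : Prop := ∀ (x y : ℤ) (h : Sym), Odd y → ¬ (In (app (inv h) (qp x y)) ∧
  ¬ SIn (app (inv h) (qp x y)))

/-- (10) An odd cycle of overlapping tiles. -/
def PStm10 : Prop := ∃ (g : ZMod 5 → Sym) (p : ZMod 5 → ℤ × ℤ),
  ∀ t, Odd (p t).2 ∧ SIn (app (inv (g t)) (qp (p t).1 (p t).2)) ∧
    SIn (app (inv (g (t + 1))) (qp (p t).1 (p t).2)) ∧ g t ≠ g (t + 1)

end Q139.DT
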